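import Pool.Graph.R_pool_sql_team_seeded_3997aac3.Q255.FM.Ln4

set_option autoImplicit false

/-!
Moments of rational order `2p/n` near the critical line: the three functions
`ζ^p w`, `Q^n w`, `(ζ^p - Q^n) w`, with `Q` the truncated Dirichlet series of `ζ^(p/n)`.
-/

open Filter MeasureTheory Metric Set Topology
open Pool.Agent.H306R2 Pool.Agent.Q255.FM

namespace Pool.Agent.H7.NR

noncomputable section

/-- the exponent `p/n` -/
def kk (n p : ℕ) : ℝ := (p : ℝ) / (n : ℝ)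

lemma kk_pos {n p : ℕ} (hn : 0 < n) (hp : 0 < p) : 0 < kk n p := by
  unfold kk; positivity

/-- truncated Dirichlet series of `ζ^(p/n)` -/
def SP (n p : ℕ) (N : ℝ) (s : ℂ) : ℂ := Dp (dv (kk n p)) N s

def gJ (n p : ℕ) (τ H : ℝ) (s : ℂ) : ℂ := zr s ^ p * wn n τ H s

def gS (n p : ℕ) (N τ H : ℝ) (s : ℂ) : ℂ := (SP n p N s ^ n * rr s ^ p) * wn n τ H s

def gK (n p : ℕ) (N τ H : ℝ) (s : ℂ) : ℂ := (zr s ^ p - SP n p N s ^ n * rr s ^ p) * wn n τ H s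

lemma SP_diff (n p : ℕ) (N : ℝ) : Differentiable ℂ (SP n p N) := Dp_differentiable _ _

lemma SP_an (n p : ℕ) (N : ℝ) (s : ℂ) : AnalyticAt ℂ (SP n p N) s := (SP_diff n p N).analyticAt s

lemma dv_le_pow {κ : ℝ} (h0 : 0 ≤ κ) {J : ℕ} (hJ : κ ≤ J) (m : ℕ) : dv κ m ≤ (m : ℝ) ^ J := by
  have h := PB_dA h0 hJ m
  rw [dA_apply] at h
  exact (le_abs_self _).trans h

lemma kk_le {n p : ℕ} (hn : 0 < n) : kk n p ≤ (p : ℝ) := by
  unfold kk
  have : (1 : ℝ) ≤ n := by exact_mod_cast hn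
  exact div_le_self (by positivity) this

lemma kk_nonneg (n p : ℕ) : 0 ≤ kk n p := by unfold kk; positivity

lemma SP_norm_le {n p : ℕ} (hn : 0 < n) {N : ℝ} (hN : 1 ≤ N) {z : ℂ} (h1 : 0 ≤ z.re) :
    ‖SP n p N z‖ ≤ N ^ (p + 1) := by
  unfold SP Dp
  have hN0 : 0 ≤ N := by linarith
  calc ‖∑ m ∈ Finset.Icc 1 ⌊N⌋₊, (dv (kk n p) m : ℂ) * (m : ℂ) ^ (-z)‖
      ≤ ∑ m ∈ Finset.Icc 1 ⌊N⌋₊, N ^ p := by
        refine norm_sum_le_of_le _ fun m hm => ?_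
        rw [Finset.mem_Icc] at hm
        have hm0 : (1 : ℝ) ≤ m := by exact_mod_cast hm.1
        have hmN : (m : ℝ) ≤ N := (Nat.le_floor_iff hN0).mp hm.2
        rw [norm_mul, Complex.norm_real, norm_ncpow m hm.1,
          Real.norm_of_nonneg (dv_nonneg (kk_nonneg n p) m)]
        have h2 := dv_le_pow (kk_nonneg n p) (kk_le (p := p) hn) m
        have h3 : (m : ℝ) ^ (-z).re ≤ 1 := by
          rw [Complex.neg_re]
          exact Real.rpow_le_one_of_one_le_of_nonpos hm0 (by linarith)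
        calc dv (kk n p) m * (m : ℝ) ^ (-z).re ≤ (m : ℝ) ^ p * 1 := by
              apply mul_le_mul h2 h3 (by positivity) (by positivity)
          _ ≤ N ^ p := by rw [mul_one]; gcongr
    _ = ⌊N⌋₊ * N ^ p := by simp
    _ ≤ N * N ^ p := by gcongr; exact Nat.floor_le hN0
    _ = N ^ (p + 1) := by ring

lemma zrp_growth {a b : ℝ} (ha : 0 < a) (p : ℕ) {z : ℂ} (h1 : a ≤ z.re) (h2 : z.re ≤ b) :
    ‖zr z ^ p‖ ≤ ((b + 1) * (b + 2) * (1 + 1 / a)) ^ p * (1 + |z.im|) ^ (2 * p) := by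
  rw [norm_pow]
  have h := zr_growth ha h1 h2
  calc ‖zr z‖ ^ p ≤ (((b + 1) * (b + 2) * (1 + 1 / a)) * (1 + |z.im|) ^ 2) ^ p := by gcongr
    _ = _ := by rw [mul_pow, ← pow_mul]

lemma good_gJ {n p : ℕ} (hn : 0 < n) (τ H : ℝ) (hH : 0 < H) {a b : ℝ} (ha : 0 < a) (hab : a ≤ b) :
    Good (gJ n p τ H) (2 / (n : ℝ)) a b := by
  refine good_of_poly hn τ H hH (g := fun z => zr z ^ p) (fun z hz => (zr_an (by linarith [hz.1])).pow p)
    (((b + 1) * (b + 2) * (1 + 1 / a)) ^ p) ?_ (2 * p) (fun z h1 h2 => zrp_growth ha p h1 h2)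
  have : 0 < b := by linarith
  positivity

lemma SPr_growth {n p : ℕ} (hn : 0 < n) {N : ℝ} (hN : 1 ≤ N) {z : ℂ} (hz : 0 < z.re) :
    ‖SP n p N z ^ n * rr z ^ p‖ ≤ (N ^ (p + 1)) ^ n := by
  rw [norm_mul, norm_pow, norm_pow]
  have h1 := SP_norm_le (p := p) hn hN hz.le
  have h2 := norm_rr_le hz
  have h3 : ‖rr z‖ ^ p ≤ 1 := pow_le_one₀ (norm_nonneg _) h2
  calc ‖SP n p N z‖ ^ n * ‖rr z‖ ^ p ≤ (N ^ (p + 1)) ^ n * 1 := by gcongr
    _ = _ := mul_one _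

lemma SPr_an {n p : ℕ} (N : ℝ) {z : ℂ} (hz : 0 < z.re) :
    AnalyticAt ℂ (fun z => SP n p N z ^ n * rr z ^ p) z :=
  ((SP_an n p N z).pow n).mul ((rr_an hz).pow p)

lemma good_gS {n p : ℕ} (hn : 0 < n) {N : ℝ} (hN : 1 ≤ N) (τ H : ℝ) (hH : 0 < H) {a b : ℝ}
    (ha : 0 < a) : Good (gS n p N τ H) (2 / (n : ℝ)) a b := by
  refine good_of_poly hn τ H hH (g := fun z => SP n p N z ^ n * rr z ^ p)
    (fun z hz => SPr_an N (by linarith [hz.1])) ((N ^ (p + 1)) ^ n) (by positivity) 0 (fun z h1 h2 => ?_)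
  rw [pow_zero, mul_one]
  exact SPr_growth hn hN (by linarith)

lemma good_gK {n p : ℕ} (hn : 0 < n) {N : ℝ} (hN : 1 ≤ N) (τ H : ℝ) (hH : 0 < H) {a b : ℝ}
    (ha : 0 < a) (hab : a ≤ b) : Good (gK n p N τ H) (2 / (n : ℝ)) a b := by
  have hb : 0 < b := by linarith
  refine good_of_poly hn τ H hH (g := fun z => zr z ^ p - SP n p N z ^ n * rr z ^ p)
    (fun z hz => ((zr_an (by linarith [hz.1])).pow p).sub (SPr_an N (by linarith [hz.1])))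
    (((b + 1) * (b + 2) * (1 + 1 / a)) ^ p + (N ^ (p + 1)) ^ n) (by positivity) (2 * p)
    (fun z h1 h2 => ?_)
  have h3 := zrp_growth ha p h1 h2
  have h4 := SPr_growth (p := p) hn hN (z := z) (by linarith)
  have h5 : (1 : ℝ) ≤ (1 + |z.im|) ^ (2 * p) := one_le_pow₀ (by linarith [abs_nonneg z.im])
  calc ‖zr z ^ p - SP n p N z ^ n * rr z ^ p‖ ≤ ‖zr z ^ p‖ + ‖SP n p N z ^ n * rr z ^ p‖ := norm_sub_le _ _
    _ ≤ ((b + 1) * (b + 2) * (1 + 1 / a)) ^ p * (1 + |z.im|) ^ (2 * p) +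
        (N ^ (p + 1)) ^ n * (1 + |z.im|) ^ (2 * p) := by
        have : (0 : ℝ) ≤ (N ^ (p + 1)) ^ n := by positivity
        nlinarith
    _ = _ := by ring

/-! the triangle inequalities -/

lemma gJ_eq (n p : ℕ) (N τ H : ℝ) (s : ℂ) : gJ n p τ H s = gK n p N τ H s + gS n p N τ H s := by
  unfold gJ gK gS; ring

lemma tri1 {n p : ℕ} (hn : 2 ≤ n) {N : ℝ} (hN : 1 ≤ N) (τ H : ℝ) (hH : 0 < H) {x : ℝ} (hx : 0 < x) :
    VV (gJ n p τ H) (2 / (n : ℝ)) x ≤ VV (gS n p N τ H) (2 / (n : ℝ)) x + VV (gK n p N τ H) (2 / (n : ℝ)) x ∧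
    VV (gS n p N τ H) (2 / (n : ℝ)) x ≤ VV (gJ n p τ H) (2 / (n : ℝ)) x + VV (gK n p N τ H) (2 / (n : ℝ)) x ∧
    VV (gK n p N τ H) (2 / (n : ℝ)) x ≤ VV (gJ n p τ H) (2 / (n : ℝ)) x + VV (gS n p N τ H) (2 / (n : ℝ)) x := by
  have hn' : 0 < n := by omega
  have hn2 : (2 : ℝ) ≤ n := by exact_mod_cast hn
  have hp1 : 2 / (n : ℝ) ≤ 1 := by rw [div_le_one (by linarith)]; exact hn2
  have g1 := good_gJ (p := p) hn' τ H hH hx (le_refl x)
  have g2 := good_gS (p := p) hn' hN τ H hH (b := x) hx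
  have g3 := good_gK (p := p) hn' hN τ H hH hx (le_refl x)
  have hmem : x ∈ Icc x x := ⟨le_rfl, le_rfl⟩
  refine ⟨VV_add_le g2 g3 g1 hp1 hmem fun z => ?_, VV_add_le g1 g3 g2 hp1 hmem fun z => ?_,
    VV_add_le g1 g2 g3 hp1 hmem fun z => ?_⟩
  · rw [gJ_eq n p N, add_comm]; exact norm_add_le _ _
  · have : gS n p N τ H z = gJ n p τ H z - gK n p N τ H z := by rw [gJ_eq n p N]; ring
    rw [this]; exact norm_sub_le _ _
  · have : gK n p N τ H z = gJ n p τ H z - gS n p N τ H z := by rw [gJ_eq n p N]; ring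
    rw [this]; exact norm_sub_le _ _

end

end Pool.Agent.H7.NR
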