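import Pool.Agent.H7.NR.A

set_option autoImplicit false

/-!
The line far to the right.
-/

open Filter MeasureTheory Metric Set Topology
open Pool.Agent.H306R2 Pool.Agent.Q255.FM

namespace Pool.Agent.H7.NR

noncomputable section

variable {n p : ℕ}

/-- the Dirichlet series of `ζ^(p/n)` -/
def DE (n p : ℕ) (s : ℂ) : ℂ := LSeries (fun m => toC (dA (kk n p)) m) s

lemma DE_term_le (hn : 0 < n) {s : ℂ} (m : ℕ) :
    ‖LSeries.term (fun m => toC (dA (kk n p)) m) s m‖ ≤ (m : ℝ) ^ ((p : ℝ) - s.re) := by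
  rcases Nat.eq_zero_or_pos m with h0 | h0
  · subst h0
    rw [LSeries.term_zero, norm_zero]
    positivity
  · have hm0 : (0 : ℝ) < m := by exact_mod_cast h0
    rw [LSeries.norm_term_eq, if_neg (by omega), toC_apply, Complex.norm_real, Real.rpow_sub hm0]
    apply div_le_div_of_nonneg_right _ (by positivity)
    rw [dA_apply, Real.norm_of_nonneg (dv_nonneg (kk_nonneg n p) m), Real.rpow_natCast]
    exact dv_le_pow (kk_nonneg n p) (kk_le hn) m

lemma rpow_re_le' {A : ℝ} (hA : (p : ℝ) + 2 ≤ A) (m : ℕ) (hm : m ≠ 0) :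
    (m : ℝ) ^ ((p : ℝ) - A) ≤ 1 / (m : ℝ) ^ 2 := by
  have hm1 : (1 : ℝ) ≤ m := by exact_mod_cast (by omega : 1 ≤ m)
  have hm0 : (0 : ℝ) < m := by linarith
  have e : 1 / (m : ℝ) ^ 2 = (m : ℝ) ^ (-2 : ℝ) := by
    rw [Real.rpow_neg hm0.le, one_div]
    norm_cast
  rw [e]
  exact Real.rpow_le_rpow_of_exponent_le hm1 (by linarith)

lemma DE_term_le2 (hn : 0 < n) {s : ℂ} (hs : (p : ℝ) + 2 ≤ s.re) (m : ℕ) :
    ‖LSeries.term (fun m => toC (dA (kk n p)) m) s m‖ ≤ 1 / (m : ℝ) ^ 2 := by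
  rcases Nat.eq_zero_or_pos m with h0 | h0
  · subst h0
    rw [LSeries.term_zero, norm_zero]
    positivity
  · exact (DE_term_le hn m).trans (rpow_re_le' hs m (by omega))

lemma DE_hasSum (hn : 0 < n) {s : ℂ} (hs : (p : ℝ) + 2 ≤ s.re) :
    LSeriesHasSum (fun m => toC (dA (kk n p)) m) s (DE n p s) := by
  have h : LSeriesSummable (fun m => toC (dA (kk n p)) m) s :=
    Summable.of_norm_bounded (g := fun m : ℕ => 1 / (m : ℝ) ^ 2) Z2_summable
      (fun m => DE_term_le2 hn hs m)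
  exact h.LSeriesHasSum

lemma kk_mul (hn : 0 < n) : (n : ℝ) * kk n p = (p : ℝ) := by
  unfold kk
  have hn0 : (n : ℝ) ≠ 0 := by exact_mod_cast hn.ne'
  field_simp

lemma DE_pow (hn : 0 < n) {s : ℂ} (hs : (p : ℝ) + 2 ≤ s.re) : DE n p s ^ n = riemannZeta s ^ p := by
  have hs1 : 1 < s.re := by
    have : (0 : ℝ) ≤ p := by positivity
    linarith
  have key : ∀ j : ℕ, LSeriesHasSum (fun m => toC (dA (kk n p) ^ j) m) s (DE n p s ^ j) := by
    intro j
    induction j with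
    | zero =>
      rw [pow_zero, pow_zero]
      have h1 := Dp_hasSum 1 1 (by
        intro n hn
        rw [ArithmeticFunction.one_apply_ne]
        rintro rfl
        simp at hn) s
      have h2 : Dp (1 : ArithmeticFunction ℝ) 1 s = 1 := by
        unfold Dp; simp
      rwa [h2] at h1
    | succ j ih =>
      rw [pow_succ, pow_succ, toC_mul]
      exact ArithmeticFunction.LSeriesHasSum_mul ih (DE_hasSum hn hs)
  have hz : LSeriesHasSum (fun m => toC zR m) s (riemannZeta s) := by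
    rw [toC_zR]
    exact ArithmeticFunction.LSeriesHasSum_zeta hs1
  have key2 : ∀ j : ℕ, LSeriesHasSum (fun m => toC (zR ^ j) m) s (riemannZeta s ^ j) := by
    intro j
    induction j with
    | zero =>
      rw [pow_zero, pow_zero]
      have h1 := Dp_hasSum 1 1 (by
        intro n hn
        rw [ArithmeticFunction.one_apply_ne]
        rintro rfl
        simp at hn) s
      have h2 : Dp (1 : ArithmeticFunction ℝ) 1 s = 1 := by
        unfold Dp; simp
      rwa [h2] at h1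
    | succ j ih =>
      rw [pow_succ, pow_succ, toC_mul]
      exact ArithmeticFunction.LSeriesHasSum_mul ih hz
  have h1 := key n
  rw [dA_pow, kk_mul hn, dA_nat] at h1
  exact h1.unique (key2 p)

lemma DE_norm_le (hn : 0 < n) {s : ℂ} (hs : (p : ℝ) + 2 ≤ s.re) : ‖DE n p s‖ ≤ Z2 := by
  have h := DE_hasSum hn hs
  have h1 : HasSum _ (DE n p s) := h
  rw [← h1.tsum_eq]
  exact tsum_of_norm_bounded Z2_summable.hasSum fun m => DE_term_le2 hn hs m

lemma SP_hasSum (n p : ℕ) (N : ℝ) (s : ℂ) :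
    HasSum (fun m : ℕ => if m ∈ Finset.Icc 1 ⌊N⌋₊ then
      LSeries.term (fun m => toC (dA (kk n p)) m) s m else 0) (SP n p N s) := by
  have h1 : SP n p N s = ∑ m ∈ Finset.Icc 1 ⌊N⌋₊, (if m ∈ Finset.Icc 1 ⌊N⌋₊ then
      LSeries.term (fun m => toC (dA (kk n p)) m) s m else 0) := by
    unfold SP Dp
    refine Finset.sum_congr rfl fun m hm => ?_
    rw [if_pos hm]
    rw [Finset.mem_Icc] at hm
    rw [LSeries.term_of_ne_zero (by omega), toC_apply, Complex.cpow_neg, dA_apply]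
    exact (div_eq_mul_inv _ _).symm
  rw [h1]
  apply hasSum_sum_of_ne_finset_zero
  intro m hm
  rw [if_neg hm]

lemma SP_norm_le' (hn : 0 < n) (N : ℝ) {s : ℂ} (hs : (p : ℝ) + 2 ≤ s.re) : ‖SP n p N s‖ ≤ Z2 := by
  rw [← (SP_hasSum n p N s).tsum_eq]
  refine tsum_of_norm_bounded Z2_summable.hasSum fun m => ?_
  split_ifs with h
  · exact DE_term_le2 hn hs m
  · rw [norm_zero]; positivity

lemma DE_sub_SP (hn : 0 < n) {N : ℝ} (hN : 1 ≤ N) {s : ℂ} (hs : (p : ℝ) + 2 ≤ s.re) :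
    ‖DE n p s - SP n p N s‖ ≤ N ^ ((p : ℝ) + 2 - s.re) * Z2 := by
  have h : HasSum _ (DE n p s) := DE_hasSum hn hs
  have h1 := h.sub (SP_hasSum n p N s)
  rw [← h1.tsum_eq]
  refine tsum_of_norm_bounded (Z2_summable.hasSum.mul_left _) fun m => ?_
  split_ifs with hm
  · rw [sub_self, norm_zero]; positivity
  · rw [sub_zero]
    rcases Nat.eq_zero_or_pos m with h0 | h0
    · subst h0
      rw [LSeries.term_zero, norm_zero]
      positivity
    · have hmN : N < m := by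
        rw [Finset.mem_Icc, not_and_or] at hm
        rcases hm with h2 | h2
        · omega
        · exact Nat.lt_of_floor_lt (by omega)
      have hm0 : (0 : ℝ) < m := by exact_mod_cast h0
      refine (DE_term_le hn m).trans ?_
      have e1 : (m : ℝ) ^ ((p : ℝ) - s.re) = (m : ℝ) ^ ((p : ℝ) + 2 - s.re) * (1 / (m : ℝ) ^ 2) := by
        have e2 : (p : ℝ) - s.re = ((p : ℝ) + 2 - s.re) + (-2) := by ring
        rw [e2, Real.rpow_add hm0, Real.rpow_neg hm0.le]
        have : (m : ℝ) ^ (2 : ℝ) = (m : ℝ) ^ 2 := by norm_cast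
        rw [this, one_div]
      rw [e1]
      apply mul_le_mul_of_nonneg_right _ (by positivity)
      exact Real.rpow_le_rpow_of_nonpos (by linarith) hmN.le (by linarith)

lemma gK_right0 (hn : 0 < n) {N : ℝ} (hN : 1 ≤ N) {s : ℂ} (hs : (p : ℝ) + 2 ≤ s.re) :
    ‖zr s ^ p - SP n p N s ^ n * rr s ^ p‖ ≤ n * Z2 ^ (n + 1) * N ^ ((p : ℝ) + 2 - s.re) := by
  have hp0 : (0 : ℝ) ≤ p := by positivity
  have h1 : s ≠ 1 := by
    rintro rfl
    norm_num at hs
    linarith
  rw [zr_eq (by linarith) h1, mul_pow, ← DE_pow hn hs, ← sub_mul, norm_mul, norm_pow]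
  have h3 := norm_rr_le (s := s) (by linarith)
  have h3' : ‖rr s‖ ^ p ≤ 1 := pow_le_one₀ (norm_nonneg _) h3
  have h4 := norm_pow_sub_pow Z2_ge_one (DE_norm_le hn hs) (SP_norm_le' hn N hs) n
  have h5 := DE_sub_SP hn hN hs
  have hZ := Z2_nonneg
  calc ‖DE n p s ^ n - SP n p N s ^ n‖ * ‖rr s‖ ^ p ≤
      (n * Z2 ^ n * (N ^ ((p : ℝ) + 2 - s.re) * Z2)) * 1 := by
        apply mul_le_mul _ h3' (by positivity) (by positivity)
        exact h4.trans (by gcongr)
    _ = _ := by ring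

theorem gK_right (hn : 0 < n) {N : ℝ} (hN : 1 ≤ N) (τ H : ℝ) (hH : 0 < H) {A : ℝ}
    (hA : (p : ℝ) + 2 ≤ A) :
    VV (gK n p N τ H) (2 / (n : ℝ)) A ≤
      (n * Z2 ^ (n + 1) * N ^ ((p : ℝ) + 2 - A)) ^ (2 / (n : ℝ)) * Real.exp ((A - 1 / 2) ^ 2 / H ^ 2) := by
  apply VV_le_of_bound hn τ H hH (g := fun s => zr s ^ p - SP n p N s ^ n * rr s ^ p)
    (by have := Z2_nonneg; positivity)
  intro y
  have := gK_right0 (p := p) hn hN (s := A + y * Complex.I) (by rw [re_line]; exact hA)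
  rwa [re_line] at this

/-- the error on the line `x` in terms of the error on the critical line -/
theorem K_line (hn : 0 < n) {c ε : ℝ} (hc : 0 < c) (hε : 0 < ε) (hε1 : ε ≤ 1) :
    ∃ N₀ : ℝ, ∀ N τ H x d X : ℝ, N₀ ≤ N → 1 ≤ H → 0 < d → d ≤ c → x = 1 / 2 + d / Real.log N →
      1 ≤ X → VV (gK n p N τ H) (2 / (n : ℝ)) (1 / 2) ≤ X →
      VV (gK n p N τ H) (2 / (n : ℝ)) x ≤ (1 + ε) * Real.exp (-(2 / (n : ℝ) * d)) * X := by
  have hn0 : (0 : ℝ) < n := by exact_mod_cast hn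
  set q : ℝ := 2 / (n : ℝ) with hq
  have hq0 : 0 < q := by positivity
  -- choice of `A`
  have hlim : Tendsto (fun A : ℝ => Real.exp (q * c * ((p : ℝ) + 3 / 2) / (A - 1 / 2))) atTop (𝓝 1) := by
    have h1 : Tendsto (fun A : ℝ => q * c * ((p : ℝ) + 3 / 2) / (A - 1 / 2)) atTop (𝓝 0) := by
      apply Tendsto.const_div_atTop
      exact tendsto_atTop_add_const_right _ _ tendsto_id
    have h2 := (Real.continuous_exp.tendsto 0).comp h1
    simpa [Function.comp_def] using h2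
  have hev := (hlim.eventually (gt_mem_nhds (show (1 : ℝ) < 1 + ε / 3 by linarith))).and
    (eventually_ge_atTop ((p : ℝ) + 2))
  obtain ⟨A, hA1, hA2⟩ := hev.exists
  have hp0 : (0 : ℝ) ≤ p := by positivity
  have hA0 : 0 < A - 1 / 2 := by linarith
  set B₀ : ℝ := max 1 ((n * Z2 ^ (n + 1)) ^ q * Real.exp ((A - 1 / 2) ^ 2)) with hB₀
  have hB₀1 : 1 ≤ B₀ := le_max_left _ _
  have hlim2 : Tendsto (fun N : ℝ => B₀ ^ (c / Real.log N / (A - 1 / 2))) atTop (𝓝 1) := by
    have h1 : Tendsto (fun N : ℝ => c / Real.log N / (A - 1 / 2)) atTop (𝓝 0) := by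
      have := (log_div_tendsto c).div_const (A - 1 / 2)
      simpa using this
    have h2 : Tendsto (fun N : ℝ => Real.exp (Real.log B₀ * (c / Real.log N / (A - 1 / 2)))) atTop (𝓝 1) := by
      have h3 : Tendsto (fun N : ℝ => Real.log B₀ * (c / Real.log N / (A - 1 / 2))) atTop (𝓝 0) := by
        have := h1.const_mul (Real.log B₀)
        simpa using this
      have := (Real.continuous_exp.tendsto 0).comp h3
      simpa [Function.comp_def] using this
    refine h2.congr fun N => ?_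
    rw [Real.rpow_def_of_pos (by linarith)]
  have hev2 := ((hlim2.eventually (gt_mem_nhds (show (1 : ℝ) < 1 + ε / 3 by linarith))).and
    (((log_div_tendsto c).eventually (gt_mem_nhds hA0)).and (eventually_gt_atTop (1 : ℝ))))
  obtain ⟨N₀, hN₀⟩ := eventually_atTop.1 hev2
  refine ⟨max N₀ 2, fun N τ H x d X hN hH hd hdc hx hX h => ?_⟩
  obtain ⟨h1, h2, h3⟩ := hN₀ N ((le_max_left _ _).trans hN)
  have hl : 0 < Real.log N := Real.log_pos h3
  have hd' : 0 < d / Real.log N := by positivity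
  have hdc' : d / Real.log N ≤ c / Real.log N := by gcongr
  have hx1 : 1 / 2 ≤ x := by rw [hx]; linarith
  have hxA : x ≤ A := by rw [hx]; linarith
  have hH0 : 0 < H := by linarith
  have hgood := good_gK (p := p) hn h3.le τ H hH0 (a := 1 / 2) (b := A) (by norm_num) (by linarith)
  have hNpos : (0 : ℝ) < N := by linarith
  have hright : VV (gK n p N τ H) q A ≤ B₀ * N ^ (q * ((p : ℝ) + 2 - A)) := by
    refine (gK_right hn h3.le τ H hH0 hA2).trans ?_
    have hZ := Z2_nonneg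
    rw [← hq, Real.mul_rpow (by positivity) (by positivity), ← Real.rpow_mul hNpos.le]
    have e1 : ((p : ℝ) + 2 - A) * q = q * ((p : ℝ) + 2 - A) := by ring
    rw [e1]
    have e2 : Real.exp ((A - 1 / 2) ^ 2 / H ^ 2) ≤ Real.exp ((A - 1 / 2) ^ 2) := by
      apply Real.exp_le_exp.mpr
      apply div_le_self (by positivity)
      nlinarith
    calc (n * Z2 ^ (n + 1)) ^ q * N ^ (q * ((p : ℝ) + 2 - A)) * Real.exp ((A - 1 / 2) ^ 2 / H ^ 2)
        ≤ (n * Z2 ^ (n + 1)) ^ q * N ^ (q * ((p : ℝ) + 2 - A)) * Real.exp ((A - 1 / 2) ^ 2) := by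
          gcongr
      _ = ((n * Z2 ^ (n + 1)) ^ q * Real.exp ((A - 1 / 2) ^ 2)) * N ^ (q * ((p : ℝ) + 2 - A)) := by ring
      _ ≤ B₀ * N ^ (q * ((p : ℝ) + 2 - A)) := by
          gcongr
          exact le_max_right _ _
  have h4 := hgood.three_lines (by linarith) (by linarith : 0 < X)
    (B := B₀ * N ^ (q * ((p : ℝ) + 2 - A))) (by positivity) h hright ⟨hx1, hxA⟩
  refine h4.trans ?_
  have e3 : X ^ ((A - x) / (A - 1 / 2)) ≤ X := by
    calc X ^ ((A - x) / (A - 1 / 2)) ≤ X ^ (1 : ℝ) :=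
          Real.rpow_le_rpow_of_exponent_le hX (by rw [div_le_one hA0]; linarith)
      _ = X := Real.rpow_one X
  have e4 : (B₀ * N ^ (q * ((p : ℝ) + 2 - A))) ^ ((x - 1 / 2) / (A - 1 / 2)) =
      B₀ ^ (d / Real.log N / (A - 1 / 2)) *
        (Real.exp (-(q * d)) * Real.exp (q * d * ((p : ℝ) + 3 / 2) / (A - 1 / 2))) := by
    rw [Real.mul_rpow (by positivity) (by positivity), ← Real.rpow_mul hNpos.le]
    have hxe : x - 1 / 2 = d / Real.log N := by rw [hx]; ring
    rw [hxe]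
    congr 1
    rw [Real.rpow_def_of_pos hNpos, ← Real.exp_add]
    congr 1
    have e5 : Real.log N * (q * ((p : ℝ) + 2 - A) * (d / Real.log N / (A - 1 / 2))) =
        q * d * (((p : ℝ) + 2 - A) / (A - 1 / 2)) := by
      field_simp
    have e6 : ((p : ℝ) + 2 - A) / (A - 1 / 2) = -1 + ((p : ℝ) + 3 / 2) / (A - 1 / 2) := by
      rw [show (p : ℝ) + 2 - A = -(A - 1 / 2) + ((p : ℝ) + 3 / 2) by ring, add_div, neg_div,
        div_self hA0.ne']
    rw [e5, e6]
    ring
  rw [e4]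
  have hE := Real.exp_pos (-(q * d))
  have hE2 := Real.exp_pos (q * d * ((p : ℝ) + 3 / 2) / (A - 1 / 2))
  have hεε : (1 + ε / 3) * (1 + ε / 3) ≤ 1 + ε := by nlinarith
  have e7 : B₀ ^ (d / Real.log N / (A - 1 / 2)) ≤ 1 + ε / 3 := by
    refine le_trans ?_ h1.le
    apply Real.rpow_le_rpow_of_exponent_le hB₀1
    gcongr
  have e8 : Real.exp (q * d * ((p : ℝ) + 3 / 2) / (A - 1 / 2)) ≤ 1 + ε / 3 := by
    refine le_trans ?_ hA1.le
    apply Real.exp_le_exp.mpr
    gcongr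
  calc X ^ ((A - x) / (A - 1 / 2)) * (B₀ ^ (d / Real.log N / (A - 1 / 2)) *
        (Real.exp (-(q * d)) * Real.exp (q * d * ((p : ℝ) + 3 / 2) / (A - 1 / 2))))
        ≤ X * ((1 + ε / 3) * (Real.exp (-(q * d)) * (1 + ε / 3))) := by gcongr
      _ = (1 + ε / 3) * (1 + ε / 3) * Real.exp (-(q * d)) * X := by ring
      _ ≤ (1 + ε) * Real.exp (-(q * d)) * X := by gcongr

end

end Pool.Agent.H7.NR
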