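import Pool.Agent.H7.NR.B

set_option autoImplicit false

/-!
Gaussian mean square of the Dirichlet polynomial, `VV gS` in terms of it.
-/

open Filter MeasureTheory Metric Set Topology
open Pool.Agent.H306R2 Pool.Agent.Q255.FM

namespace Pool.Agent.H7.NR

noncomputable section

variable {n p : ℕ}

/-- coefficients on the line `x` -/
def cp (κ x : ℝ) (m : ℕ) : ℝ := dv κ m * (m : ℝ) ^ (-x)

lemma cp_nonneg {κ : ℝ} (hκ : 0 ≤ κ) (x : ℝ) (m : ℕ) : 0 ≤ cp κ x m := by
  unfold cp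
  have := dv_nonneg (α := κ) hκ m
  positivity

lemma cp_le {N : ℝ} (hn : 0 < n) {x : ℝ} (hx : 0 ≤ x) {m : ℕ} (hm : 1 ≤ m) (hmN : (m : ℝ) ≤ N) :
    cp (kk n p) x m ≤ N ^ p := by
  have hm0 : (1 : ℝ) ≤ m := by exact_mod_cast hm
  unfold cp
  have h2 := dv_le_pow (kk_nonneg n p) (kk_le (p := p) hn) m
  have h3 : (m : ℝ) ^ (-x) ≤ 1 := Real.rpow_le_one_of_one_le_of_nonpos hm0 (by linarith)
  have hN : 0 ≤ N := by linarith
  calc dv (kk n p) m * (m : ℝ) ^ (-x) ≤ (m : ℝ) ^ p * 1 := by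
        apply mul_le_mul h2 h3 (by positivity) (by positivity)
    _ ≤ N ^ p := by rw [mul_one]; gcongr

lemma SP_sq (n p : ℕ) (N x y : ℝ) :
    ‖SP n p N ((x : ℂ) + y * Complex.I)‖ ^ 2 = ∑ m ∈ Finset.Icc 1 ⌊N⌋₊, ∑ k ∈ Finset.Icc 1 ⌊N⌋₊,
      cp (kk n p) x m * cp (kk n p) x k * Real.cos (y * (Real.log m - Real.log k)) := by
  have h1 : SP n p N ((x : ℂ) + y * Complex.I) =
      ((∑ m ∈ Finset.Icc 1 ⌊N⌋₊, cp (kk n p) x m * Real.cos (y * Real.log m) : ℝ) : ℂ) +
      ((-(∑ m ∈ Finset.Icc 1 ⌊N⌋₊, cp (kk n p) x m * Real.sin (y * Real.log m)) : ℝ) : ℂ) * Complex.I := by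
    unfold SP Dp
    push_cast
    rw [neg_mul, Finset.sum_mul, ← sub_eq_add_neg, ← Finset.sum_sub_distrib]
    refine Finset.sum_congr rfl fun m hm => ?_
    rw [Finset.mem_Icc] at hm
    rw [ncpow_line m hm.1, Complex.exp_neg, Complex.exp_mul_I]
    unfold cp
    have h2 : (Complex.cos ((y * Real.log m : ℝ) : ℂ) + Complex.sin ((y * Real.log m : ℝ) : ℂ) * Complex.I)⁻¹ =
        Complex.cos ((y * Real.log m : ℝ) : ℂ) - Complex.sin ((y * Real.log m : ℝ) : ℂ) * Complex.I := by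
      rw [← Complex.exp_mul_I, ← Complex.exp_neg, ← neg_mul, Complex.exp_mul_I, Complex.cos_neg,
        Complex.sin_neg]
      ring
    rw [h2]
    push_cast
    ring
  rw [h1, ← Complex.normSq_eq_norm_sq, Complex.normSq_apply, re_line, im_line]
  set A := ∑ m ∈ Finset.Icc 1 ⌊N⌋₊, cp (kk n p) x m * Real.cos (y * Real.log m) with hA
  set B := ∑ m ∈ Finset.Icc 1 ⌊N⌋₊, cp (kk n p) x m * Real.sin (y * Real.log m) with hB
  have h3 : A * A + -B * -B = A * A + B * B := by ring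
  rw [h3, hA, hB, Finset.sum_mul_sum, Finset.sum_mul_sum, ← Finset.sum_add_distrib]
  refine Finset.sum_congr rfl fun m _ => ?_
  rw [← Finset.sum_add_distrib]
  refine Finset.sum_congr rfl fun k _ => ?_
  rw [mul_sub y, Real.cos_sub]
  ring

/-- Gaussian mean square of `SP` -/
def QP (n p : ℕ) (N τ H x : ℝ) : ℝ := ∫ y : ℝ, ‖SP n p N ((x : ℂ) + y * Complex.I)‖ ^ 2 * gw τ H y

/-- the diagonal -/
def DP (κ N x : ℝ) : ℝ := ∑ m ∈ Finset.Icc 1 ⌊N⌋₊, cp κ x m ^ 2

theorem QP_sub_DP (hn : 0 < n) {N : ℝ} (hN : 1 ≤ N) (τ H : ℝ) (hH : 0 < H) {x : ℝ}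
    (hx : 0 ≤ x) : |QP n p N τ H x - DP (kk n p) N x| ≤
      N ^ (2 * p + 2) * Real.exp (-(H ^ 2 / (4 * N ^ 2))) := by
  have h1 : QP n p N τ H x = ∑ m ∈ Finset.Icc 1 ⌊N⌋₊, ∑ k ∈ Finset.Icc 1 ⌊N⌋₊,
      cp (kk n p) x m * cp (kk n p) x k * (Real.cos (τ * (Real.log m - Real.log k)) *
        Real.exp (-(H ^ 2 * (Real.log m - Real.log k) ^ 2 / 4))) := by
    unfold QP
    simp_rw [SP_sq, Finset.sum_mul]
    rw [integral_finsetSum]
    · refine Finset.sum_congr rfl fun m _ => ?_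
      rw [integral_finsetSum]
      · refine Finset.sum_congr rfl fun k _ => ?_
        rw [← cos_gw_integral τ H hH, ← integral_const_mul]
        refine integral_congr_ae (Eventually.of_forall fun y => ?_)
        simp only
        ring
      · intro k _
        have := (cos_gw_integrable τ H hH (Real.log m - Real.log k)).const_mul
          (cp (kk n p) x m * cp (kk n p) x k)
        refine this.congr (Eventually.of_forall fun y => ?_)
        simp only
        ring
    · intro m _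
      refine integrable_finsetSum _ fun k _ => ?_
      have := (cos_gw_integrable τ H hH (Real.log m - Real.log k)).const_mul
        (cp (kk n p) x m * cp (kk n p) x k)
      refine this.congr (Eventually.of_forall fun y => ?_)
      simp only
      ring
  have h2 : DP (kk n p) N x = ∑ m ∈ Finset.Icc 1 ⌊N⌋₊, ∑ k ∈ Finset.Icc 1 ⌊N⌋₊,
      (if m = k then cp (kk n p) x m * cp (kk n p) x k else 0) := by
    unfold DP
    refine Finset.sum_congr rfl fun m hm => ?_
    rw [Finset.sum_ite_eq, if_pos hm]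
    ring
  rw [h1, h2, ← Finset.sum_sub_distrib]
  have hN0 : 0 < N := by linarith
  have hb : ∀ m ∈ Finset.Icc 1 ⌊N⌋₊, ∀ k ∈ Finset.Icc 1 ⌊N⌋₊,
      |cp (kk n p) x m * cp (kk n p) x k * (Real.cos (τ * (Real.log m - Real.log k)) *
        Real.exp (-(H ^ 2 * (Real.log m - Real.log k) ^ 2 / 4))) -
        (if m = k then cp (kk n p) x m * cp (kk n p) x k else 0)| ≤
        N ^ (2 * p) * Real.exp (-(H ^ 2 / (4 * N ^ 2))) := by
    intro m hm k hk
    rw [Finset.mem_Icc] at hm hk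
    by_cases hmk : m = k
    · subst hmk
      simp only [sub_self, mul_zero, Real.cos_zero, ne_eq, OfNat.ofNat_ne_zero, not_false_eq_true,
        zero_pow, zero_div, neg_zero, Real.exp_zero, mul_one, if_true, abs_zero]
      positivity
    · rw [if_neg hmk, sub_zero, abs_mul, abs_mul (Real.cos _), Real.abs_exp]
      have hmN : (m : ℝ) ≤ N := (Nat.le_floor_iff (by linarith)).mp hm.2
      have hkN : (k : ℝ) ≤ N := (Nat.le_floor_iff (by linarith)).mp hk.2
      have h3 := log_sep hm.1 hk.1 hmN hkN hmk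
      have h4 : |cp (kk n p) x m * cp (kk n p) x k| ≤ N ^ (2 * p) := by
        rw [abs_of_nonneg (mul_nonneg (cp_nonneg (kk_nonneg n p) _ _) (cp_nonneg (kk_nonneg n p) _ _))]
        have := mul_le_mul (cp_le (p := p) hn hx hm.1 hmN) (cp_le (p := p) hn hx hk.1 hkN)
          (cp_nonneg (kk_nonneg n p) _ _) (by positivity)
        calc _ ≤ N ^ p * N ^ p := this
          _ = _ := by ring
      have h5 := Real.abs_cos_le_one (τ * (Real.log m - Real.log k))
      have h6 : Real.exp (-(H ^ 2 * (Real.log m - Real.log k) ^ 2 / 4)) ≤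
          Real.exp (-(H ^ 2 / (4 * N ^ 2))) := by
        apply Real.exp_le_exp.mpr
        have h7 : H ^ 2 / (4 * N ^ 2) = H ^ 2 * (1 / N) ^ 2 / 4 := by field_simp
        rw [h7]
        have : H ^ 2 * (1 / N) ^ 2 ≤ H ^ 2 * (Real.log m - Real.log k) ^ 2 := by gcongr
        linarith
      calc _ ≤ N ^ (2 * p) * (1 * Real.exp (-(H ^ 2 / (4 * N ^ 2)))) := by
            gcongr
        _ = _ := by ring
  have hcard : ((Finset.Icc 1 ⌊N⌋₊).card : ℝ) ≤ N := by
    rw [Nat.card_Icc, Nat.add_sub_cancel]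
    exact Nat.floor_le (by linarith)
  calc _ ≤ ∑ m ∈ Finset.Icc 1 ⌊N⌋₊, |∑ k ∈ Finset.Icc 1 ⌊N⌋₊,
        cp (kk n p) x m * cp (kk n p) x k * (Real.cos (τ * (Real.log m - Real.log k)) *
        Real.exp (-(H ^ 2 * (Real.log m - Real.log k) ^ 2 / 4))) -
        ∑ k ∈ Finset.Icc 1 ⌊N⌋₊, (if m = k then cp (kk n p) x m * cp (kk n p) x k else 0)| :=
        Finset.abs_sum_le_sum_abs _ _
    _ ≤ ∑ m ∈ Finset.Icc 1 ⌊N⌋₊, ∑ k ∈ Finset.Icc 1 ⌊N⌋₊,
        N ^ (2 * p) * Real.exp (-(H ^ 2 / (4 * N ^ 2))) := by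
        refine Finset.sum_le_sum fun m hm => ?_
        rw [← Finset.sum_sub_distrib]
        exact (Finset.abs_sum_le_sum_abs _ _).trans (Finset.sum_le_sum fun k hk => hb m hm k hk)
    _ = (Finset.Icc 1 ⌊N⌋₊).card * ((Finset.Icc 1 ⌊N⌋₊).card *
        (N ^ (2 * p) * Real.exp (-(H ^ 2 / (4 * N ^ 2))))) := by
        rw [Finset.sum_const, Finset.sum_const, nsmul_eq_mul, nsmul_eq_mul]
    _ ≤ N * (N * (N ^ (2 * p) * Real.exp (-(H ^ 2 / (4 * N ^ 2))))) := by gcongr
    _ = _ := by ring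

lemma norm_gS_eq (hn : 0 < n) (N τ H : ℝ) (hH : 0 < H) (x y : ℝ) :
    ‖gS n p N τ H (x + y * Complex.I)‖ ^ (2 / (n : ℝ)) =
      Real.exp ((x - 1 / 2) ^ 2 / H ^ 2) * (‖SP n p N (x + y * Complex.I)‖ ^ 2 *
        (‖rr (x + y * Complex.I)‖ ^ p) ^ (2 / (n : ℝ)) * gw τ H y) := by
  have hn0 : (n : ℝ) ≠ 0 := by exact_mod_cast hn.ne'
  unfold gS
  rw [norm_mul, Real.mul_rpow (norm_nonneg _) (norm_nonneg _), norm_wn n hn τ H hH, norm_mul,
    Real.mul_rpow (norm_nonneg _) (norm_nonneg _), norm_pow, norm_pow, ← Real.rpow_natCast _ n,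
    ← Real.rpow_mul (norm_nonneg _), mul_div_cancel₀ _ hn0]
  have : ‖SP n p N (x + y * Complex.I)‖ ^ (2 : ℝ) = ‖SP n p N (x + y * Complex.I)‖ ^ 2 := by norm_cast
  rw [this]
  ring

lemma SP_cont (n p : ℕ) (N x : ℝ) : Continuous (fun y : ℝ => SP n p N (x + y * Complex.I)) :=
  (SP_diff n p N).continuous.comp (by fun_prop)

lemma SP_gw_integrable (hn : 0 < n) {N : ℝ} (hN : 1 ≤ N) (τ H : ℝ) (hH : 0 < H) {x : ℝ}
    (hx : 0 ≤ x) : Integrable (fun y : ℝ => ‖SP n p N (x + y * Complex.I)‖ ^ 2 * gw τ H y) := by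
  refine (gw_integrable τ H hH).bdd_mul (c := (N ^ (p + 1)) ^ 2) ?_ ?_
  · exact ((SP_cont n p N x).norm.pow 2).aestronglyMeasurable
  · filter_upwards with y
    rw [Real.norm_of_nonneg (by positivity)]
    have := SP_norm_le (p := p) hn hN (z := x + y * Complex.I) (by rw [re_line]; exact hx)
    gcongr

theorem gS_upper (hn : 0 < n) {N : ℝ} (hN : 1 ≤ N) (τ H : ℝ) (hH : 0 < H) {x : ℝ}
    (hx : 0 < x) : VV (gS n p N τ H) (2 / (n : ℝ)) x ≤
      Real.exp ((x - 1 / 2) ^ 2 / H ^ 2) * QP n p N τ H x := by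
  have hg := (good_gS (p := p) hn hN τ H hH (a := x) (b := x) hx).integrable (x := x) ⟨le_rfl, le_rfl⟩
  unfold VV QP
  rw [← integral_const_mul]
  refine integral_mono hg ((SP_gw_integrable hn hN τ H hH hx.le).const_mul _) fun y => ?_
  simp only
  rw [norm_gS_eq hn N τ H hH]
  apply mul_le_mul_of_nonneg_left _ (Real.exp_pos _).le
  apply mul_le_mul_of_nonneg_right _ (gw_nonneg τ H y hH)
  have h1 := norm_rr_le (s := x + y * Complex.I) (by rw [re_line]; exact hx)
  have h2 : (‖rr (x + y * Complex.I)‖ ^ p) ^ (2 / (n : ℝ)) ≤ 1 :=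
    Real.rpow_le_one (by positivity) (pow_le_one₀ (norm_nonneg _) h1) (by positivity)
  calc _ ≤ ‖SP n p N (x + y * Complex.I)‖ ^ 2 * 1 := by gcongr
    _ = _ := mul_one _

theorem gS_lower (hn : 2 ≤ n) {N : ℝ} (hN : 1 ≤ N) {τ H : ℝ} (hτ : 2 ≤ τ) (hH : 0 < H)
    {x : ℝ} (hx : 0 < x) :
    (1 - 4 * p / τ) * QP n p N τ H x - 2 * (N ^ (p + 1)) ^ 2 * Real.exp (-(τ ^ 2 / (8 * H ^ 2))) ≤
      VV (gS n p N τ H) (2 / (n : ℝ)) x := by
  have hn' : 0 < n := by omega
  have hτ0 : 0 < τ := by linarith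
  have hn2 : (2 : ℝ) ≤ n := by exact_mod_cast hn
  have hp1 : 2 / (n : ℝ) ≤ 1 := by rw [div_le_one (by linarith)]; exact hn2
  have hg := (good_gS (p := p) hn' hN τ H hH (a := x) (b := x) hx).integrable (x := x) ⟨le_rfl, le_rfl⟩
  have hQ := SP_gw_integrable (p := p) hn' hN τ H hH hx.le
  set E : Set ℝ := (Ioc (τ - τ / 2) (τ + τ / 2))ᶜ with hE
  have hEm : MeasurableSet E := measurableSet_Ioc.compl
  have htail := gw_tail τ H (τ / 2) hH (by linarith)
  have e1 : (τ / 2) ^ 2 / (2 * H ^ 2) = τ ^ 2 / (8 * H ^ 2) := by field_simp; ring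
  rw [e1] at htail
  set M := (N ^ (p + 1)) ^ 2 with hM
  have hint2 : Integrable (fun y : ℝ => (1 - 4 * p / τ) * (‖SP n p N (x + y * Complex.I)‖ ^ 2 * gw τ H y) -
      E.indicator (fun y => M * gw τ H y) y) :=
    (hQ.const_mul _).sub (((gw_integrable τ H hH).const_mul _).indicator hEm)
  have h1 : ∀ y : ℝ, (1 - 4 * p / τ) * (‖SP n p N (x + y * Complex.I)‖ ^ 2 * gw τ H y) -
      E.indicator (fun y => M * gw τ H y) y ≤ ‖gS n p N τ H (x + y * Complex.I)‖ ^ (2 / (n : ℝ)) := by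
    intro y
    rw [norm_gS_eq hn' N τ H hH]
    set q := ‖SP n p N (x + y * Complex.I)‖ ^ 2 with hq
    have hq0 : 0 ≤ q := by positivity
    have hw := gw_nonneg τ H y hH
    have hre : 0 < ((x : ℂ) + y * Complex.I).re := by rw [re_line]; exact hx
    have hr1 := norm_rr_le hre
    have hr2 := norm_rr_ge hre
    set ρ := ‖rr (x + y * Complex.I)‖ with hρ
    have hρ0 : 0 ≤ ρ := norm_nonneg _
    have hρp : ρ ^ p ≤ (ρ ^ p) ^ (2 / (n : ℝ)) := by
      have := Real.rpow_le_rpow_of_exponent_ge' (pow_nonneg hρ0 p) (pow_le_one₀ hρ0 hr1)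
        (by positivity : 0 ≤ 2 / (n : ℝ)) hp1
      rwa [Real.rpow_one] at this
    have hexp : 1 ≤ Real.exp ((x - 1 / 2) ^ 2 / H ^ 2) := Real.one_le_exp (by positivity)
    have hR : q * ρ ^ p * gw τ H y ≤ Real.exp ((x - 1 / 2) ^ 2 / H ^ 2) *
        (q * (ρ ^ p) ^ (2 / (n : ℝ)) * gw τ H y) := by
      have h3 : q * ρ ^ p * gw τ H y ≤ q * (ρ ^ p) ^ (2 / (n : ℝ)) * gw τ H y := by gcongr
      have h4 : 0 ≤ q * (ρ ^ p) ^ (2 / (n : ℝ)) * gw τ H y := by positivity
      nlinarith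
    refine le_trans ?_ hR
    by_cases hy : y ∈ E
    · rw [Set.indicator_of_mem hy]
      have hqN : q ≤ M := by
        have := SP_norm_le (p := p) hn' hN (z := x + y * Complex.I) hre.le
        rw [hq, hM]
        gcongr
      have h4τ : 0 ≤ 4 * p / τ := by positivity
      have h5 : 0 ≤ q * gw τ H y := by positivity
      have h6 : 0 ≤ q * ρ ^ p * gw τ H y := by positivity
      have h7 : q * gw τ H y ≤ M * gw τ H y := by gcongr
      nlinarith
    · rw [Set.indicator_of_notMem hy, sub_zero]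
      have hy2 : τ / 2 < y := by
        rw [hE, Set.mem_compl_iff, not_not, Set.mem_Ioc] at hy
        linarith [hy.1]
      have hs : τ / 2 ≤ ‖(x : ℂ) + y * Complex.I + 1‖ := by
        have h8 := Complex.abs_im_le_norm ((x : ℂ) + y * Complex.I + 1)
        have h9 : ((x : ℂ) + y * Complex.I + 1).im = y := by simp
        rw [h9] at h8
        have := le_abs_self y
        linarith
      have h10 : 1 - 4 / τ ≤ ρ := by
        refine le_trans ?_ hr2
        have : 2 / ‖(x : ℂ) + y * Complex.I + 1‖ ≤ 4 / τ := by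
          rw [div_le_div_iff₀ (by linarith) hτ0]
          linarith
        linarith
      have h11 : 1 - 4 * p / τ ≤ ρ ^ p := by
        have h12 : -2 ≤ -(4 / τ) := by
          have : 4 / τ ≤ 2 := by rw [div_le_iff₀ hτ0]; linarith
          linarith
        have h13 := one_add_mul_le_pow h12 p
        rcases le_or_gt 0 (1 - 4 / τ) with h14 | h14
        · calc 1 - 4 * p / τ = 1 + (p : ℝ) * -(4 / τ) := by ring
            _ ≤ (1 + -(4 / τ)) ^ p := h13
            _ ≤ ρ ^ p := by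
                apply pow_le_pow_left₀ (by linarith)
                linarith
        · rcases Nat.eq_zero_or_pos p with hp | hp
          · subst hp; simp
          · have hp' : (1 : ℝ) ≤ p := by exact_mod_cast hp
            have h15 : 1 - 4 * p / τ ≤ 0 := by
              have : 4 / τ ≤ 4 * p / τ := by gcongr; linarith
              linarith
            exact h15.trans (pow_nonneg hρ0 p)
      calc (1 - 4 * p / τ) * (q * gw τ H y) ≤ ρ ^ p * (q * gw τ H y) := by gcongr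
        _ = _ := by ring
  have h2 := integral_mono hint2 hg h1
  rw [integral_sub (hQ.const_mul _) (((gw_integrable τ H hH).const_mul _).indicator hEm),
    integral_const_mul, integral_indicator hEm, integral_const_mul] at h2
  refine le_trans ?_ h2
  unfold QP
  have h3 : M * ∫ y in E, gw τ H y ≤ M * (2 * Real.exp (-(τ ^ 2 / (8 * H ^ 2)))) :=
    mul_le_mul_of_nonneg_left htail (by positivity)
  linarith

/-! the diagonal -/

lemma cp_sq {κ N : ℝ} (hN : 1 < N) (c : ℝ) {m : ℕ} (hm : 1 ≤ m) :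
    cp κ (1 / 2 + c / Real.log N) m ^ 2 =
      dv κ m ^ 2 / m * Real.exp (-(2 * c * (Real.log m / Real.log N))) := by
  have hm0 : (0 : ℝ) < m := by exact_mod_cast hm
  have hl : 0 < Real.log N := Real.log_pos hN
  unfold cp
  rw [mul_pow, ← Real.rpow_natCast ((m : ℝ) ^ _), ← Real.rpow_mul hm0.le, div_mul_eq_mul_div, mul_div_assoc]
  congr 1
  rw [Real.rpow_def_of_pos hm0]
  have : (m : ℝ) = Real.exp (Real.log m) := (Real.exp_log hm0).symm
  conv_rhs => rw [this]
  rw [← Real.exp_sub, Real.log_exp]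
  congr 1
  push_cast
  field_simp
  ring

/-- asymptotics of the diagonal -/
theorem DP_tendsto {κ : ℝ} (hκ0 : 0 < κ) (c : ℝ) :
    Tendsto (fun N : ℝ => DP κ N (1 / 2 + c / Real.log N) / Real.log N ^ (κ ^ 2)) atTop
      (𝓝 (aF κ * Ph κ c)) := by
  have haF := aF_pos hκ0
  -- error of the smoothing
  have herr : Tendsto (fun δ : ℝ => aF κ * (Real.exp (4 * |c|) *
      (((1 + δ) ^ (κ ^ 2) - (1 - δ) ^ (κ ^ 2)) / Real.Gamma (κ ^ 2 + 1)))) (𝓝[>] 0) (𝓝 0) := by
    have hcont : ContinuousAt (fun δ : ℝ => aF κ * (Real.exp (4 * |c|) *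
      (((1 + δ) ^ (κ ^ 2) - (1 - δ) ^ (κ ^ 2)) / Real.Gamma (κ ^ 2 + 1)))) 0 := by
      refine ContinuousAt.mul continuousAt_const (ContinuousAt.mul continuousAt_const
        (ContinuousAt.div_const (ContinuousAt.sub ?_ ?_) _))
      · exact ContinuousAt.rpow_const (by fun_prop) (Or.inl (by norm_num))
      · exact ContinuousAt.rpow_const (by fun_prop) (Or.inl (by norm_num))
    have := hcont.tendsto.mono_left (nhdsWithin_le_nhds (s := Ioi 0))
    simpa using this
  rw [Metric.tendsto_atTop]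
  intro ε hε
  have h1 := (herr.eventually (gt_mem_nhds (show (0 : ℝ) < ε / 2 by linarith))).and
    (Ioo_mem_nhdsGT (show (0 : ℝ) < 1 by norm_num))
  obtain ⟨δ, hδ1, hδ2⟩ := h1.exists
  have hδ0 : 0 < δ := hδ2.1
  have hδ3 : δ ≤ 1 := hδ2.2.le
  set φp : ℝ → ℝ := fun u => Real.exp (-(2 * c * u)) * sc 1 δ u with hφp
  set φm : ℝ → ℝ := fun u => Real.exp (-(2 * c * u)) * sc (1 - δ) δ u with hφm
  have hpc : Continuous φp := by
    have := sc_cont 1 δ
    fun_prop
  have hmc : Continuous φm := by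
    have := sc_cont (1 - δ) δ
    fun_prop
  have hp0 : ∀ u : ℝ, 1 + δ ≤ u → φp u = 0 := fun u hu => by
    simp only [hφp]; rw [sc_eq_zero hδ0 hu, mul_zero]
  have hm0 : ∀ u : ℝ, 1 ≤ u → φm u = 0 := fun u hu => by
    simp only [hφm]; rw [sc_eq_zero hδ0 (by linarith), mul_zero]
  have kp := (kar hκ0 φp hpc (1 + δ) (by linarith) hp0).2
  have km := (kar hκ0 φm hmc 1 (by norm_num) hm0).2
  have dp := cut_diff hκ0 c hδ0 hδ3 (β := 1) (by linarith) le_rfl
  have dm := cut_diff hκ0 c hδ0 hδ3 (β := 1 - δ) le_rfl (by linarith)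
  have hlim : Tendsto Real.log atTop atTop := Real.tendsto_log_atTop
  have kp' := (kp.comp hlim).eventually (gt_mem_nhds (show aF κ * ∫ u : ℝ, gd (κ ^ 2) u * φp u <
    aF κ * (∫ u : ℝ, gd (κ ^ 2) u * φp u) + ε / 2 by linarith))
  have km' := (km.comp hlim).eventually (lt_mem_nhds (show aF κ * (∫ u : ℝ, gd (κ ^ 2) u * φm u) - ε / 2 <
    aF κ * ∫ u : ℝ, gd (κ ^ 2) u * φm u by linarith))
  obtain ⟨N0, hN0⟩ := eventually_atTop.1 ((kp'.and km').and (eventually_gt_atTop (1 : ℝ)))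
  refine ⟨N0, fun N hN => ?_⟩
  obtain ⟨⟨hA, hB⟩, hN1⟩ := hN0 N hN
  simp only [Function.comp] at hA hB
  have hl : 0 < Real.log N := Real.log_pos hN1
  have hlp : 0 < Real.log N ^ (κ ^ 2) := Real.rpow_pos_of_pos hl _
  -- the diagonal as a series
  have hDD : DP κ N (1 / 2 + c / Real.log N) = ∑' m : ℕ, dv κ m ^ 2 / m *
      (ct 1 (Real.log m / Real.log N) * Real.exp (-(2 * c * (Real.log m / Real.log N)))) := by
    rw [tsum_eq_sum (s := Finset.Icc 1 ⌊N⌋₊)]
    · unfold DP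
      refine Finset.sum_congr rfl fun m hm => ?_
      rw [Finset.mem_Icc] at hm
      rw [cp_sq hN1 c hm.1]
      have hmN : (m : ℝ) ≤ N := (Nat.le_floor_iff (by linarith)).mp hm.2
      have hm0 : (0 : ℝ) < m := by exact_mod_cast hm.1
      have : ct 1 (Real.log m / Real.log N) = 1 := by
        unfold ct
        rw [if_pos]
        rw [div_le_one hl]
        exact Real.log_le_log hm0 hmN
      rw [this, one_mul]
    · intro m hm
      rw [Finset.mem_Icc, not_and_or] at hm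
      rcases Nat.eq_zero_or_pos m with h0 | h0
      · subst h0; simp
      · rcases hm with h | h
        · omega
        · have hmN : N < m := Nat.lt_of_floor_lt (by omega)
          have : ct 1 (Real.log m / Real.log N) = 0 := by
            unfold ct
            rw [if_neg]
            rw [not_le, one_lt_div hl]
            exact Real.log_lt_log (by linarith) hmN
          rw [this]; simp
  have hnn : ∀ m : ℕ, 0 ≤ dv κ m ^ 2 / (m : ℝ) := fun m => by positivity
  have hsc : Summable (fun m : ℕ => dv κ m ^ 2 / m *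
      (ct 1 (Real.log m / Real.log N) * Real.exp (-(2 * c * (Real.log m / Real.log N))))) := by
    refine summable_cut (fun u => ct 1 u * Real.exp (-(2 * c * u))) (M := 2) hl fun u hu => ?_
    have : ct 1 u = 0 := by unfold ct; rw [if_neg (by linarith)]
    rw [this, zero_mul]
  have hup : DP κ N (1 / 2 + c / Real.log N) ≤ ∑' m : ℕ, dv κ m ^ 2 / m * φp (Real.log m / Real.log N) := by
    rw [hDD]
    refine hsc.tsum_le_tsum (fun m => ?_) (summable_cut φp (M := 1 + δ) hl hp0)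
    apply mul_le_mul_of_nonneg_left _ (hnn m)
    simp only [hφp]
    rw [mul_comm]
    apply mul_le_mul_of_nonneg_left (ct_le_sc hδ0 _) (Real.exp_pos _).le
  have hdn : ∑' m : ℕ, dv κ m ^ 2 / m * φm (Real.log m / Real.log N) ≤ DP κ N (1 / 2 + c / Real.log N) := by
    rw [hDD]
    refine (summable_cut φm (M := 1) hl hm0).tsum_le_tsum (fun m => ?_) hsc
    apply mul_le_mul_of_nonneg_left _ (hnn m)
    simp only [hφm]
    rw [mul_comm]
    apply mul_le_mul_of_nonneg_right _ (Real.exp_pos _).le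
    have := sc_le_ct (a := 1 - δ) hδ0 (Real.log m / Real.log N)
    rwa [show 1 - δ + δ = 1 by ring] at this
  rw [Real.dist_eq, abs_lt]
  have hA' := (div_le_div_of_nonneg_right hup hlp.le).trans_lt hA
  have hB' := hB.trans_le (div_le_div_of_nonneg_right hdn hlp.le)
  have dp' := mul_le_mul_of_nonneg_left dp haF.le
  have dm' := mul_le_mul_of_nonneg_left dm haF.le
  rw [← abs_of_pos haF, ← abs_mul, mul_sub, abs_of_pos haF, abs_le] at dp' dm'
  constructor
  · linarith [dm'.1]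
  · linarith [dp'.2]

lemma DP_anti {κ N x x' : ℝ} (hκ : 0 ≤ κ) (hx : x ≤ x') : DP κ N x' ≤ DP κ N x := by
  unfold DP
  refine Finset.sum_le_sum fun m hm => ?_
  rw [Finset.mem_Icc] at hm
  have hm0 : (1 : ℝ) ≤ m := by exact_mod_cast hm.1
  have h1 : cp κ x' m ≤ cp κ x m := by
    unfold cp
    apply mul_le_mul_of_nonneg_left _ (dv_nonneg hκ m)
    exact Real.rpow_le_rpow_of_exponent_le hm0 (by linarith)
  have h2 := cp_nonneg hκ x' m
  gcongr

end

end Pool.Agent.H7.NR
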