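import Pool.Agent.H7.NR.C

set_option autoImplicit false

/-!
Averages over the centre of the window.
-/

open Filter MeasureTheory Metric Set Topology
open Pool.Agent.H306R2 Pool.Agent.Q255.FM

namespace Pool.Agent.H7.NR

noncomputable section

variable {n p : ℕ}

/-- `‖ζ(x+it) rr‖^{2p/n}` -/
def GX (n p : ℕ) (x t : ℝ) : ℝ := (‖zr ((x : ℂ) + t * Complex.I)‖ ^ p) ^ (2 / (n : ℝ))

lemma GX_nonneg (n p : ℕ) (x t : ℝ) : 0 ≤ GX n p x t := by unfold GX; positivity

lemma GX_continuous {x : ℝ} (hx : 0 < x) : Continuous (GX n p x) := by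
  unfold GX
  have h0 : ContinuousOn zr {z : ℂ | 0 < z.re} :=
    fun z hz => (zr_an hz).continuousAt.continuousWithinAt
  have h : ContinuousOn (fun z => ‖zr z‖) {z : ℂ | 0 < z.re} := h0.norm
  have h2 : Continuous (fun t : ℝ => ‖zr ((x : ℂ) + t * Complex.I)‖) :=
    h.comp_continuous (by fun_prop) (fun t => by simp only [mem_setOf_eq, re_line]; exact hx)
  exact (h2.pow p).rpow_const (fun _ => Or.inr (by positivity))

lemma GX_growth (hn : 2 ≤ n) {x : ℝ} (hx : 1 / 4 ≤ x) (hx1 : x ≤ 1) (t : ℝ) :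
    GX n p x t ≤ 30 ^ p * (1 + |t|) ^ (2 * p) := by
  have hn2 : (2 : ℝ) ≤ n := by exact_mod_cast hn
  have hp1 : 2 / (n : ℝ) ≤ 1 := by rw [div_le_one (by linarith)]; exact hn2
  unfold GX
  have g1 := zr_growth (a := 1 / 4) (b := 1) (by norm_num)
    (z := (x : ℂ) + t * Complex.I) (by rw [re_line]; exact hx)
    (by rw [re_line]; exact hx1)
  rw [im_line] at g1
  have e : ((1 : ℝ) + 1) * (1 + 2) * (1 + 1 / (1 / 4)) = 30 := by norm_num
  rw [e] at g1
  have hy0 := abs_nonneg t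
  have g4 : (1 : ℝ) ≤ 30 * (1 + |t|) ^ 2 := by nlinarith
  calc _ ≤ ((30 * (1 + |t|) ^ 2) ^ p) ^ (2 / (n : ℝ)) :=
        Real.rpow_le_rpow (by positivity) (by gcongr) (by positivity)
    _ ≤ ((30 * (1 + |t|) ^ 2) ^ p) ^ (1 : ℝ) :=
        Real.rpow_le_rpow_of_exponent_le (one_le_pow₀ g4) hp1
    _ = _ := by rw [Real.rpow_one, mul_pow, ← pow_mul]

lemma VV_lineP (hn : 0 < n) (x τ H : ℝ) (hH : 0 < H) :
    VV (gJ n p τ H) (2 / (n : ℝ)) x = Real.exp ((x - 1 / 2) ^ 2 / H ^ 2) *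
      ∫ t : ℝ, GX n p x t * gw τ H t := by
  unfold VV
  rw [← integral_const_mul]
  refine integral_congr_ae (Eventually.of_forall fun t => ?_)
  simp only
  unfold gJ GX
  rw [norm_mul, Real.mul_rpow (norm_nonneg _) (norm_nonneg _), norm_wn n hn τ H hH, norm_pow]
  ring

/-- the constant of the tails -/
def Kp (p : ℕ) : ℝ := (2 * p + 2).factorial * Real.exp (3 / 2)

lemma Kp_pos (p : ℕ) : 0 < Kp p := by unfold Kp; positivity

lemma gtail {τ H R t : ℝ} (hH : 1 ≤ H) (hR : 0 ≤ R) (ht : R ≤ |t - τ|) :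
    (1 + |t|) ^ (2 * p) * gw τ H t ≤
      Kp p * ((1 + |τ|) * H) ^ (2 * p + 2) * Real.exp (-(R ^ 2 / (2 * H ^ 2))) * (1 + t ^ 2)⁻¹ := by
  set m : ℕ := 2 * p + 2 with hm
  have hH0 : 0 < H := by linarith
  set u := |t - τ| with hu
  have hu0 : 0 ≤ u := abs_nonneg _
  set v := u / H with hv
  have hv0 : 0 ≤ v := by positivity
  have h1 : 1 + |t| ≤ (1 + |τ|) * H * (1 + v) := by
    have h2 : |t| ≤ |τ| + u := by
      have : t = τ + (t - τ) := by ring
      calc |t| = |τ + (t - τ)| := by rw [← this]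
        _ ≤ _ := abs_add_le _ _
    have h3 : H * (1 + v) = H + u := by rw [hv]; field_simp
    have h4 := abs_nonneg τ
    calc 1 + |t| ≤ (1 + |τ|) * (H + u) := by nlinarith
      _ = _ := by rw [← h3]; ring
  have h5 : (1 + v) ^ m ≤ (m.factorial : ℝ) * Real.exp (1 + v) := by
    have := Real.pow_div_factorial_le_exp (1 + v) (by linarith) m
    rw [div_le_iff₀ (by positivity)] at this
    linarith
  have h6 : (1 + |t|) ^ m ≤ ((1 + |τ|) * H) ^ m * ((m.factorial : ℝ) * Real.exp (1 + v)) := by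
    calc (1 + |t|) ^ m ≤ ((1 + |τ|) * H * (1 + v)) ^ m := by gcongr
      _ = ((1 + |τ|) * H) ^ m * (1 + v) ^ m := mul_pow _ _ _
      _ ≤ _ := by gcongr
  have h7 : gw τ H t ≤ Real.exp (-(v ^ 2)) := by
    unfold gw
    have h8 : (t - τ) ^ 2 / H ^ 2 = v ^ 2 := by
      rw [hv, div_pow, hu, sq_abs]
    rw [h8]
    apply div_le_self (Real.exp_pos _).le
    have h9 : 1 ≤ Real.sqrt Real.pi := by
      rw [Real.one_le_sqrt]
      linarith [Real.pi_gt_three]
    nlinarith
  have h8 : R ^ 2 / (2 * H ^ 2) ≤ v ^ 2 / 2 := by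
    rw [hv, div_pow, div_div, mul_comm (H ^ 2) 2]
    gcongr
  have hgw := gw_nonneg τ H t hH0
  have h9 : (1 + |t|) ^ m * gw τ H t ≤
      Kp p * ((1 + |τ|) * H) ^ m * Real.exp (-(R ^ 2 / (2 * H ^ 2))) := by
    calc (1 + |t|) ^ m * gw τ H t ≤
        (((1 + |τ|) * H) ^ m * ((m.factorial : ℝ) * Real.exp (1 + v))) * Real.exp (-(v ^ 2)) := by
          gcongr
      _ = ((m.factorial : ℝ) * Real.exp (1 + v - v ^ 2 / 2)) * ((1 + |τ|) * H) ^ m *
            Real.exp (-(v ^ 2 / 2)) := by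
          have : Real.exp (1 + v) * Real.exp (-(v ^ 2)) =
              Real.exp (1 + v - v ^ 2 / 2) * Real.exp (-(v ^ 2 / 2)) := by
            rw [← Real.exp_add, ← Real.exp_add]
            congr 1
            ring
          linear_combination ((1 + |τ|) * H) ^ m * (m.factorial : ℝ) * this
      _ ≤ ((m.factorial : ℝ) * Real.exp (3 / 2)) * ((1 + |τ|) * H) ^ m *
            Real.exp (-(R ^ 2 / (2 * H ^ 2))) := by
          have h10 : 1 + v - v ^ 2 / 2 ≤ 3 / 2 := by nlinarith [sq_nonneg (v - 1)]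
          gcongr
      _ = _ := rfl
  have h11 : (1 + |t|) ^ (2 * p) * (1 + t ^ 2) ≤ (1 + |t|) ^ m := by
    rw [hm, pow_add]
    apply mul_le_mul_of_nonneg_left _ (by positivity)
    nlinarith [abs_nonneg t, sq_abs t]
  have h12 : 0 < 1 + t ^ 2 := by positivity
  rw [← div_eq_mul_inv, le_div_iff₀ h12]
  calc (1 + |t|) ^ (2 * p) * gw τ H t * (1 + t ^ 2) = (1 + |t|) ^ (2 * p) * (1 + t ^ 2) * gw τ H t := by
        ring
    _ ≤ (1 + |t|) ^ m * gw τ H t := by gcongr
    _ ≤ _ := h9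

lemma GX_gw_le (hn : 2 ≤ n) {x : ℝ} (hx : 1 / 4 ≤ x) (hx1 : x ≤ 1) {τ H R t B : ℝ} (hH : 1 ≤ H)
    (hR : 0 ≤ R) (ht : R ≤ |t - τ|) (hB : |τ| ≤ B) :
    GX n p x t * gw τ H t ≤ 30 ^ p * (Kp p * ((1 + B) * H) ^ (2 * p + 2)) *
      Real.exp (-(R ^ 2 / (2 * H ^ 2))) * (1 + t ^ 2)⁻¹ := by
  have h1 := gtail (p := p) hH hR ht
  have h0 := gw_nonneg τ H t (by linarith)
  have hK := Kp_pos p
  have hτ := abs_nonneg τ
  calc GX n p x t * gw τ H t ≤ 30 ^ p * (1 + |t|) ^ (2 * p) * gw τ H t := by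
        gcongr
        exact GX_growth hn hx hx1 t
    _ = 30 ^ p * ((1 + |t|) ^ (2 * p) * gw τ H t) := by ring
    _ ≤ 30 ^ p * (Kp p * ((1 + |τ|) * H) ^ (2 * p + 2) * Real.exp (-(R ^ 2 / (2 * H ^ 2))) *
        (1 + t ^ 2)⁻¹) := by gcongr
    _ ≤ 30 ^ p * (Kp p * ((1 + B) * H) ^ (2 * p + 2) * Real.exp (-(R ^ 2 / (2 * H ^ 2))) *
        (1 + t ^ 2)⁻¹) := by gcongr
    _ = _ := by ring

lemma GX_gw_integrable (hn : 2 ≤ n) {x : ℝ} (hx : 1 / 4 ≤ x) (hx1 : x ≤ 1) (τ : ℝ) {H : ℝ}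
    (hH : 1 ≤ H) : Integrable (fun t => GX n p x t * gw τ H t) := by
  refine (integrable_inv_one_add_sq.const_mul (30 ^ p * (Kp p * ((1 + |τ|) * H) ^ (2 * p + 2)) *
      Real.exp (-(0 ^ 2 / (2 * H ^ 2))))).mono' (((GX_continuous (by linarith)).mul
    (gw_continuous τ H)).aestronglyMeasurable) (Eventually.of_forall fun t => ?_)
  have h0 := gw_nonneg τ H t (by linarith)
  rw [Real.norm_of_nonneg (mul_nonneg (GX_nonneg n p x t) h0)]
  exact GX_gw_le hn hx hx1 hH le_rfl (abs_nonneg _) le_rfl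

lemma GX_prod_cont {x : ℝ} (hx : 0 < x) (H : ℝ) :
    Continuous (fun q : ℝ × ℝ => GX n p x q.2 * gw q.1 H q.2) := by
  have := GX_continuous (n := n) (p := p) (x := x) hx
  unfold gw
  fun_prop

lemma GX_prod_integrable (hn : 2 ≤ n) {x : ℝ} (hx : 1 / 4 ≤ x) (hx1 : x ≤ 1) {H : ℝ}
    (hH : 1 ≤ H) (a b : ℝ) : Integrable (fun q : ℝ × ℝ => GX n p x q.2 * gw q.1 H q.2)
      ((volume.restrict (Ioc a b)).prod volume) := by
  set B := |a| + |b| with hB
  have hmu : IsFiniteMeasure (volume.restrict (Ioc a b)) := ⟨by simp⟩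
  have hdom : Integrable (fun q : ℝ × ℝ => (fun _ : ℝ => (1 : ℝ)) q.1 *
      (fun t : ℝ => 30 ^ p * (Kp p * ((1 + B) * H) ^ (2 * p + 2)) *
      Real.exp (-(0 ^ 2 / (2 * H ^ 2))) * (1 + t ^ 2)⁻¹) q.2) ((volume.restrict (Ioc a b)).prod volume) :=
    (integrable_const (1 : ℝ)).mul_prod (integrable_inv_one_add_sq.const_mul _)
  refine hdom.mono' (GX_prod_cont (by linarith) H).aestronglyMeasurable ?_
  have hae : ∀ᵐ q : ℝ × ℝ ∂((volume.restrict (Ioc a b)).prod volume), q.1 ∈ Ioc a b := by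
    have h1 : ∀ᵐ τ ∂(volume.restrict (Ioc a b)), τ ∈ Ioc a b := ae_restrict_mem measurableSet_Ioc
    exact Measure.quasiMeasurePreserving_fst.ae h1
  filter_upwards [hae] with q hq
  have h0 := gw_nonneg q.1 H q.2 (by linarith)
  rw [Real.norm_of_nonneg (mul_nonneg (GX_nonneg n p x q.2) h0), one_mul]
  refine GX_gw_le hn hx hx1 hH le_rfl (abs_nonneg _) ?_
  rw [hB, abs_le]
  have h1 := neg_abs_le a
  have h2 := le_abs_self b
  have h3 := abs_nonneg a
  have h4 := abs_nonneg b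
  constructor <;> linarith [hq.1, hq.2]

/-- the average of the windows -/
def JJ (n p : ℕ) (x H a b : ℝ) : ℝ := ∫ τ in Ioc a b, ∫ t : ℝ, GX n p x t * gw τ H t

lemma inner_integrable (hn : 2 ≤ n) {x : ℝ} (hx : 1 / 4 ≤ x) (hx1 : x ≤ 1) {H : ℝ}
    (hH : 1 ≤ H) (a b : ℝ) : IntegrableOn (fun τ => ∫ t : ℝ, GX n p x t * gw τ H t) (Ioc a b) :=
  (GX_prod_integrable hn hx hx1 hH a b).integral_prod_left

lemma mass_le (H t a b : ℝ) (hH : 0 < H) : ∫ τ in Ioc a b, gw τ H t ≤ 1 := by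
  have e : ∀ τ, gw τ H t = gw t H τ := fun τ => gw_symm τ H t
  simp_rw [e]
  calc ∫ τ in Ioc a b, gw t H τ ≤ ∫ τ, gw t H τ :=
        setIntegral_le_integral (gw_integrable t H hH) (Eventually.of_forall fun τ => gw_nonneg t H τ hH)
    _ = 1 := gw_integral t H hH

lemma mass_ge {H t a b R : ℝ} (hH : 0 < H) (hR : 0 ≤ R) (ha : a ≤ t - R) (hb : t + R ≤ b) :
    1 - 2 * Real.exp (-(R ^ 2 / (2 * H ^ 2))) ≤ ∫ τ in Ioc a b, gw τ H t := by
  have h1 := gw_tail t H R hH hR
  have h2 := integral_add_compl (measurableSet_Ioc : MeasurableSet (Ioc (t - R) (t + R)))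
    (gw_integrable t H hH)
  rw [gw_integral t H hH] at h2
  have h3 : ∫ τ in Ioc (t - R) (t + R), gw t H τ ≤ ∫ τ in Ioc a b, gw t H τ := by
    refine setIntegral_mono_set (gw_integrable t H hH).integrableOn
      (Eventually.of_forall fun τ => gw_nonneg t H τ hH) ?_
    refine HasSubset.Subset.eventuallyLE ?_
    exact Ioc_subset_Ioc ha hb
  have e : ∀ τ, gw τ H t = gw t H τ := fun τ => gw_symm τ H t
  simp_rw [e]
  linarith

theorem JJ_upper (hn : 2 ≤ n) {x : ℝ} (hx : 1 / 4 ≤ x) (hx1 : x ≤ 1) {H a b R : ℝ}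
    (hH : 1 ≤ H) (hR : 0 ≤ R) (ha : 0 ≤ a) (hab : a ≤ b) :
    JJ n p x H a b ≤ (∫ t in (a - R)..(b + R), GX n p x t) +
      (b - a) * (30 ^ p * (Kp p * ((1 + b) * H) ^ (2 * p + 2)) *
      Real.exp (-(R ^ 2 / (2 * H ^ 2))) * Real.pi) := by
  have hH0 : 0 < H := by linarith
  set I : Set ℝ := Ioc (a - R) (b + R) with hI
  set M : ℝ := 30 ^ p * (Kp p * ((1 + b) * H) ^ (2 * p + 2)) *
      Real.exp (-(R ^ 2 / (2 * H ^ 2))) with hM
  have hK := Kp_pos p
  have hb0 : 0 ≤ b := by linarith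
  have hM0 : 0 ≤ M := by positivity
  have hsplit : ∀ τ ∈ Ioc a b, ∫ t : ℝ, GX n p x t * gw τ H t ≤
      (∫ t in I, GX n p x t * gw τ H t) + M * Real.pi := by
    intro τ hτ
    have hi := GX_gw_integrable (p := p) hn hx hx1 τ hH
    rw [← integral_add_compl (measurableSet_Ioc : MeasurableSet I) hi]
    have : ∫ t in Iᶜ, GX n p x t * gw τ H t ≤ M * Real.pi := by
      calc ∫ t in Iᶜ, GX n p x t * gw τ H t ≤ ∫ t in Iᶜ, M * (1 + t ^ 2)⁻¹ := by
            refine setIntegral_mono_on hi.integrableOn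
              (integrable_inv_one_add_sq.const_mul _).integrableOn measurableSet_Ioc.compl fun t ht => ?_
            refine GX_gw_le hn hx hx1 hH hR ?_ ?_
            · rw [hI, Set.mem_compl_iff, Set.mem_Ioc, not_and_or, not_lt, not_le] at ht
              rcases ht with h | h
              · have := neg_le_abs (t - τ)
                linarith [hτ.1]
              · have := le_abs_self (t - τ)
                linarith [hτ.2]
            · rw [abs_of_nonneg (by linarith [hτ.1])]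
              exact hτ.2
        _ ≤ ∫ t, M * (1 + t ^ 2)⁻¹ :=
            setIntegral_le_integral (integrable_inv_one_add_sq.const_mul _)
              (Eventually.of_forall fun t => by positivity)
        _ = M * Real.pi := by rw [integral_const_mul, integral_univ_inv_one_add_sq]
    linarith
  have hprod := (GX_prod_integrable (p := p) hn hx hx1 hH a b)
  have hprodI : Integrable (fun q : ℝ × ℝ => GX n p x q.2 * gw q.1 H q.2)
      ((volume.restrict (Ioc a b)).prod (volume.restrict I)) := by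
    have h1 : (volume.restrict (Ioc a b)).prod (volume.restrict I) ≤
        (volume.restrict (Ioc a b)).prod volume := Measure.prod_mono le_rfl Measure.restrict_le_self
    exact hprod.mono_measure h1
  have hfin : IntegrableOn (fun _ : ℝ => M * Real.pi) (Ioc a b) := continuous_const.integrableOn_Ioc
  have h1 : JJ n p x H a b ≤ (∫ τ in Ioc a b, ∫ t in I, GX n p x t * gw τ H t) + (b - a) * (M * Real.pi) := by
    calc JJ n p x H a b ≤ ∫ τ in Ioc a b, ((∫ t in I, GX n p x t * gw τ H t) + M * Real.pi) :=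
          setIntegral_mono_on (inner_integrable hn hx hx1 hH a b)
            ((hprodI.integral_prod_left).add hfin) measurableSet_Ioc hsplit
      _ = (∫ τ in Ioc a b, ∫ t in I, GX n p x t * gw τ H t) + ∫ τ in Ioc a b, M * Real.pi :=
          integral_add hprodI.integral_prod_left hfin
      _ = _ := by
          rw [setIntegral_const, smul_eq_mul, Real.volume_real_Ioc_of_le hab]
  have hGi : IntegrableOn (GX n p x) I :=
    ((GX_continuous (by linarith)).integrableOn_Icc).mono_set Ioc_subset_Icc_self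
  have h2 : (∫ τ in Ioc a b, ∫ t in I, GX n p x t * gw τ H t) ≤ ∫ t in I, GX n p x t := by
    have e1 := integral_integral_swap (μ := volume.restrict (Ioc a b)) (ν := volume.restrict I)
      (f := fun τ t => GX n p x t * gw τ H t) hprodI
    rw [e1]
    refine setIntegral_mono_on ?_ hGi measurableSet_Ioc fun t _ => ?_
    · exact hprodI.integral_prod_right
    · rw [integral_const_mul]
      have := mass_le H t a b hH0
      have h0 := GX_nonneg n p x t
      calc GX n p x t * ∫ τ in Ioc a b, gw τ H t ≤ GX n p x t * 1 := by gcongr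
        _ = _ := mul_one _
  rw [intervalIntegral.integral_of_le (by linarith)]
  have e3 : M * Real.pi = 30 ^ p * (Kp p * ((1 + b) * H) ^ (2 * p + 2)) *
      Real.exp (-(R ^ 2 / (2 * H ^ 2))) * Real.pi := by rw [hM]
  rw [← e3]
  linarith

theorem JJ_lower (hn : 2 ≤ n) {x : ℝ} (hx : 1 / 4 ≤ x) (hx1 : x ≤ 1) {H a b R : ℝ}
    (hH : 1 ≤ H) (hR : 0 ≤ R) (hab : a + R ≤ b - R) :
    (1 - 2 * Real.exp (-(R ^ 2 / (2 * H ^ 2)))) * (∫ t in (a + R)..(b - R), GX n p x t) ≤
      JJ n p x H a b := by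
  have hH0 : 0 < H := by linarith
  set I : Set ℝ := Ioc (a + R) (b - R) with hI
  have hprod := (GX_prod_integrable (p := p) hn hx hx1 hH a b)
  have hprodI : Integrable (fun q : ℝ × ℝ => GX n p x q.2 * gw q.1 H q.2)
      ((volume.restrict (Ioc a b)).prod (volume.restrict I)) := by
    have h1 : (volume.restrict (Ioc a b)).prod (volume.restrict I) ≤
        (volume.restrict (Ioc a b)).prod volume := Measure.prod_mono le_rfl Measure.restrict_le_self
    exact hprod.mono_measure h1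
  have hGi : IntegrableOn (GX n p x) I :=
    ((GX_continuous (by linarith)).integrableOn_Icc).mono_set Ioc_subset_Icc_self
  have h2 : (1 - 2 * Real.exp (-(R ^ 2 / (2 * H ^ 2)))) * (∫ t in I, GX n p x t) ≤
      ∫ τ in Ioc a b, ∫ t in I, GX n p x t * gw τ H t := by
    have e1 := integral_integral_swap (μ := volume.restrict (Ioc a b)) (ν := volume.restrict I)
      (f := fun τ t => GX n p x t * gw τ H t) hprodI
    rw [e1, ← integral_const_mul]
    refine setIntegral_mono_on (hGi.const_mul _) ?_ measurableSet_Ioc fun t ht => ?_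
    · exact hprodI.integral_prod_right
    · rw [integral_const_mul, mul_comm]
      apply mul_le_mul_of_nonneg_left _ (GX_nonneg n p x t)
      exact mass_ge hH0 hR (by linarith [ht.1]) (by linarith [ht.2])
  have h3 : ∫ τ in Ioc a b, ∫ t in I, GX n p x t * gw τ H t ≤ JJ n p x H a b := by
    refine setIntegral_mono_on hprodI.integral_prod_left (inner_integrable hn hx hx1 hH a b)
      measurableSet_Ioc fun τ _ => ?_
    exact setIntegral_le_integral (GX_gw_integrable hn hx hx1 τ hH)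
      (Eventually.of_forall fun t => mul_nonneg (GX_nonneg n p x t) (gw_nonneg τ H t hH0))
  rw [intervalIntegral.integral_of_le hab]
  exact h2.trans h3

/-! comparison with zeta -/

lemma GX_zeta {x : ℝ} (hx : 0 < x) (hx1 : x < 1) (t : ℝ) :
    GX n p x t = (‖riemannZeta (x + t * Complex.I)‖ ^ p) ^ (2 / (n : ℝ)) *
      (‖rr (x + t * Complex.I)‖ ^ p) ^ (2 / (n : ℝ)) := by
  unfold GX
  rw [zr_eq (by rw [re_line]; exact hx), norm_mul, mul_pow, Real.mul_rpow (by positivity) (by positivity)]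
  intro h
  have := congrArg Complex.re h
  rw [re_line, Complex.one_re] at this
  linarith

lemma GX_le {x : ℝ} (hx : 0 < x) (hx1 : x < 1) (t : ℝ) :
    GX n p x t ≤ (‖riemannZeta (x + t * Complex.I)‖ ^ p) ^ (2 / (n : ℝ)) := by
  rw [GX_zeta hx hx1]
  have h1 := norm_rr_le (s := x + t * Complex.I) (by rw [re_line]; exact hx)
  have h2 : (‖rr (x + t * Complex.I)‖ ^ p) ^ (2 / (n : ℝ)) ≤ 1 :=
    Real.rpow_le_one (by positivity) (pow_le_one₀ (norm_nonneg _) h1) (by positivity)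
  calc _ ≤ (‖riemannZeta (x + t * Complex.I)‖ ^ p) ^ (2 / (n : ℝ)) * 1 := by gcongr
    _ = _ := mul_one _

lemma GX_ge (hn : 2 ≤ n) {x : ℝ} (hx : 0 < x) (hx1 : x < 1) {T t : ℝ} (hT : 2 < T)
    (ht : T ≤ t) :
    (1 - 2 * p / T) * (‖riemannZeta (x + t * Complex.I)‖ ^ p) ^ (2 / (n : ℝ)) ≤ GX n p x t := by
  have hn2 : (2 : ℝ) ≤ n := by exact_mod_cast hn
  have hp1 : 2 / (n : ℝ) ≤ 1 := by rw [div_le_one (by linarith)]; exact hn2
  rw [GX_zeta hx hx1]
  have h1 := norm_rr_le (s := x + t * Complex.I) (by rw [re_line]; exact hx)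
  have h2 := norm_rr_ge (s := x + t * Complex.I) (by rw [re_line]; exact hx)
  have h3 : T ≤ ‖(x : ℂ) + (t : ℂ) * Complex.I + 1‖ := by
    have h8 := Complex.abs_im_le_norm ((x : ℂ) + (t : ℂ) * Complex.I + 1)
    have h9 : ((x : ℂ) + (t : ℂ) * Complex.I + 1).im = t := by simp
    rw [h9] at h8
    have := le_abs_self t
    linarith
  have h4 : 1 - 2 / T ≤ ‖rr (x + t * Complex.I)‖ := by
    refine le_trans ?_ h2
    have : 2 / ‖(x : ℂ) + (t : ℂ) * Complex.I + 1‖ ≤ 2 / T :=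
      div_le_div_of_nonneg_left (by norm_num) (by linarith) h3
    linarith
  have h2T : 2 / T ≤ 1 := by rw [div_le_one (by linarith)]; linarith
  have h6 : 1 - 2 * p / T ≤ ‖rr (x + t * Complex.I)‖ ^ p := by
    calc 1 - 2 * p / T = 1 + (p : ℝ) * -(2 / T) := by ring
      _ ≤ (1 + -(2 / T)) ^ p := one_add_mul_le_pow (by linarith) p
      _ ≤ _ := by
          apply pow_le_pow_left₀ (by linarith)
          linarith
  have h5 : ‖rr (x + t * Complex.I)‖ ^ p ≤ (‖rr (x + t * Complex.I)‖ ^ p) ^ (2 / (n : ℝ)) := by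
    have := Real.rpow_le_rpow_of_exponent_ge' (pow_nonneg (norm_nonneg (rr (x + t * Complex.I))) p)
      (pow_le_one₀ (norm_nonneg _) h1) (by positivity : 0 ≤ 2 / (n : ℝ)) hp1
    rwa [Real.rpow_one] at this
  rw [mul_comm]
  apply mul_le_mul_of_nonneg_left (h6.trans h5) (by positivity)

lemma zpow_eq (n p : ℕ) (s : ℂ) : (‖riemannZeta s‖ ^ p) ^ (2 / (n : ℝ)) =
    ‖riemannZeta s‖ ^ (2 * (p : ℝ) / (n : ℝ)) := by
  rw [← Real.rpow_natCast, ← Real.rpow_mul (norm_nonneg _)]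
  congr 1
  ring

end

end Pool.Agent.H7.NR
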