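import Pool.Agent.H7.NR.D

set_option autoImplicit false

/-!
The parameters `N = T / (log T)^4`, `H = T / (log T)^2`, `R = T / log T`, and limits.
-/

open Filter MeasureTheory Metric Set Topology
open Pool.Agent.H306R2 Pool.Agent.Q255.FM

namespace Pool.Agent.H7.NR

noncomputable section

variable {n p : ℕ}

def NN (T : ℝ) : ℝ := T / Real.log T ^ 4
def HH (T : ℝ) : ℝ := T / Real.log T ^ 2
def RR (T : ℝ) : ℝ := T / Real.log T

lemma ev_basic : ∀ᶠ T : ℝ in atTop, 4 ≤ Real.log T ∧ 1 < T ∧ T ≤ T ^ 2 := by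
  filter_upwards [Real.tendsto_log_atTop.eventually_ge_atTop 4, eventually_gt_atTop 1] with T h1 h2
  exact ⟨h1, h2, by nlinarith⟩

lemma div_log_tendsto (j : ℕ) : Tendsto (fun T : ℝ => T / Real.log T ^ j) atTop atTop := by
  have h := (isLittleO_log_rpow_rpow_atTop (j : ℝ) (show (0 : ℝ) < 1 / 2 by norm_num)).bound
    (show (0 : ℝ) < 1 by norm_num)
  have h2 : Tendsto (fun T : ℝ => T ^ (1 / 2 : ℝ)) atTop atTop := tendsto_rpow_atTop (by norm_num)
  refine tendsto_atTop_mono' _ ?_ h2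
  filter_upwards [h, ev_basic] with T hT hb
  obtain ⟨h4, h1, _⟩ := hb
  have hl : 0 < Real.log T := by linarith
  rw [Real.norm_of_nonneg (by positivity), Real.norm_of_nonneg (by positivity), one_mul,
    Real.rpow_natCast] at hT
  rw [le_div_iff₀ (by positivity)]
  calc T ^ (1 / 2 : ℝ) * Real.log T ^ j ≤ T ^ (1 / 2 : ℝ) * T ^ (1 / 2 : ℝ) := by gcongr
    _ = T := by rw [← Real.rpow_add (by linarith)]; norm_num

lemma NN_tendsto : Tendsto NN atTop atTop := div_log_tendsto 4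
lemma HH_tendsto : Tendsto HH atTop atTop := div_log_tendsto 2

lemma loglog_div : Tendsto (fun T : ℝ => Real.log (Real.log T) / Real.log T) atTop (𝓝 0) := by
  have h : Tendsto (fun x : ℝ => Real.log x / x) atTop (𝓝 0) := by
    have := Real.isLittleO_log_id_atTop.tendsto_div_nhds_zero
    simpa using this
  exact h.comp Real.tendsto_log_atTop

lemma log_NN_div : Tendsto (fun T : ℝ => Real.log (NN T) / Real.log T) atTop (𝓝 1) := by
  have h : Tendsto (fun T : ℝ => 1 - 4 * (Real.log (Real.log T) / Real.log T)) atTop (𝓝 1) := by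
    have := (loglog_div.const_mul 4).const_sub 1
    simpa using this
  refine h.congr' ?_
  filter_upwards [ev_basic] with T hb
  obtain ⟨h4, h1, _⟩ := hb
  have hl : 0 < Real.log T := by linarith
  unfold NN
  rw [Real.log_div (by linarith) (by positivity), Real.log_pow]
  field_simp
  push_cast
  ring

lemma log_NN_le : ∀ᶠ T : ℝ in atTop, Real.log (NN T) ≤ Real.log T ∧ 0 < Real.log (NN T) ∧ 1 < NN T := by
  filter_upwards [ev_basic, NN_tendsto.eventually_gt_atTop 1] with T hb h5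
  obtain ⟨h4, h1, _⟩ := hb
  refine ⟨?_, Real.log_pos h5, h5⟩
  apply Real.log_le_log (by linarith)
  unfold NN
  apply div_le_self (by linarith)
  exact one_le_pow₀ (by linarith)

/-- the two scales are comparable -/
lemma DP_comp {κ N x x' : ℝ} (_hκ : 0 ≤ κ) (_hN : 1 ≤ N) (hx : x ≤ x') :
    DP κ N x ≤ N ^ (2 * (x' - x)) * DP κ N x' := by
  unfold DP
  rw [Finset.mul_sum]
  refine Finset.sum_le_sum fun m hm => ?_
  rw [Finset.mem_Icc] at hm
  have hm0 : (0 : ℝ) < m := by exact_mod_cast hm.1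
  have hmN : (m : ℝ) ≤ N := (Nat.le_floor_iff (by linarith)).mp hm.2
  have e : cp κ x m ^ 2 = (m : ℝ) ^ (2 * (x' - x)) * cp κ x' m ^ 2 := by
    unfold cp
    rw [mul_pow, mul_pow, ← Real.rpow_natCast ((m : ℝ) ^ (-x)), ← Real.rpow_natCast ((m : ℝ) ^ (-x')),
      ← Real.rpow_mul hm0.le, ← Real.rpow_mul hm0.le]
    have : (m : ℝ) ^ (-x * (2 : ℕ)) = (m : ℝ) ^ (2 * (x' - x)) * (m : ℝ) ^ (-x' * (2 : ℕ)) := by
      rw [← Real.rpow_add hm0]
      congr 1
      push_cast
      ring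
    rw [this]
    ring
  rw [e]
  apply mul_le_mul_of_nonneg_right _ (sq_nonneg _)
  exact Real.rpow_le_rpow hm0.le hmN (by linarith)

theorem DPx_tendsto {κ : ℝ} (hκ : 0 < κ) {c : ℝ} (hc : 0 ≤ c) :
    Tendsto (fun T : ℝ => DP κ (NN T) (1 / 2 + c / Real.log T) / Real.log T ^ (κ ^ 2)) atTop
      (𝓝 (aF κ * Ph κ c)) := by
  have hr : Tendsto (fun T : ℝ => (Real.log (NN T) / Real.log T) ^ (κ ^ 2)) atTop (𝓝 1) := by
    have h : ContinuousAt (fun y : ℝ => y ^ (κ ^ 2)) 1 :=
      ContinuousAt.rpow_const continuousAt_id (Or.inl one_ne_zero)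
    have := h.tendsto.comp log_NN_div
    simpa [Function.comp_def] using this
  have h1 := (DP_tendsto hκ c).comp NN_tendsto
  have hlo : Tendsto (fun T : ℝ => (DP κ (NN T) (1 / 2 + c / Real.log (NN T)) /
      Real.log (NN T) ^ (κ ^ 2)) * (Real.log (NN T) / Real.log T) ^ (κ ^ 2)) atTop
      (𝓝 (aF κ * Ph κ c)) := by
    have := h1.mul hr
    simpa [Function.comp_def] using this
  have hexp : Tendsto (fun T : ℝ => Real.exp (2 * c * (1 - Real.log (NN T) / Real.log T))) atTop (𝓝 1) := by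
    have h2 : Tendsto (fun T : ℝ => 2 * c * (1 - Real.log (NN T) / Real.log T)) atTop (𝓝 0) := by
      have := (log_NN_div.const_sub 1).const_mul (2 * c)
      simpa using this
    have := (Real.continuous_exp.tendsto 0).comp h2
    simpa [Function.comp_def] using this
  have hup := hexp.mul hlo
  rw [one_mul] at hup
  refine tendsto_of_tendsto_of_tendsto_of_le_of_le' hlo hup ?_ ?_
  · filter_upwards [ev_basic, log_NN_le] with T hb hN
    obtain ⟨h4, h1', _⟩ := hb
    obtain ⟨g1, g2, g3⟩ := hN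
    have hl : 0 < Real.log T := by linarith
    have hx : 1 / 2 + c / Real.log T ≤ 1 / 2 + c / Real.log (NN T) := by gcongr
    rw [Real.div_rpow g2.le hl.le, div_mul_div_comm, mul_comm (Real.log (NN T) ^ (κ ^ 2)),
      mul_div_mul_right _ _ (Real.rpow_pos_of_pos g2 _).ne']
    exact div_le_div_of_nonneg_right (DP_anti hκ.le hx) (Real.rpow_nonneg hl.le _)
  · filter_upwards [ev_basic, log_NN_le] with T hb hN
    obtain ⟨h4, h1', _⟩ := hb
    obtain ⟨g1, g2, g3⟩ := hN
    have hl : 0 < Real.log T := by linarith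
    have hx : 1 / 2 + c / Real.log T ≤ 1 / 2 + c / Real.log (NN T) := by gcongr
    have h5 := DP_comp hκ.le g3.le hx
    have h6 : (NN T) ^ (2 * (1 / 2 + c / Real.log (NN T) - (1 / 2 + c / Real.log T))) =
        Real.exp (2 * c * (1 - Real.log (NN T) / Real.log T)) := by
      rw [Real.rpow_def_of_pos (by linarith)]
      congr 1
      field_simp
      ring
    rw [h6] at h5
    rw [Real.div_rpow g2.le hl.le, div_mul_div_comm, mul_comm (Real.log (NN T) ^ (κ ^ 2)),
      mul_div_mul_right _ _ (Real.rpow_pos_of_pos g2 _).ne', ← mul_div_assoc]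
    exact div_le_div_of_nonneg_right h5 (Real.rpow_nonneg hl.le _)

/-- error of the mean square -/
def Ex (p : ℕ) (T : ℝ) : ℝ := (NN T) ^ (2 * p + 2) * Real.exp (-((HH T) ^ 2 / (4 * (NN T) ^ 2)))

lemma HN {T : ℝ} (hT : 0 < T) (hl : 0 < Real.log T) :
    (HH T) ^ 2 / (4 * (NN T) ^ 2) = Real.log T ^ 4 / 4 := by
  unfold HH NN
  field_simp

lemma Ex_tendsto (p : ℕ) : Tendsto (Ex p) atTop (𝓝 0) := by
  have h := small0 (2 * p + 2) (b := 1) (by norm_num)
  refine squeeze_zero' (Eventually.of_forall fun T => ?_) ?_ h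
  · unfold Ex
    have : 0 ≤ (NN T) ^ (2 * p + 2) := by
      have e : 2 * p + 2 = 2 * (p + 1) := by ring
      rw [e, pow_mul]
      positivity
    positivity
  · filter_upwards [ev_basic, log_NN_le] with T hb hN
    obtain ⟨h4, h1, _⟩ := hb
    obtain ⟨g1, g2, g3⟩ := hN
    have hl : 0 < Real.log T := by linarith
    unfold Ex
    rw [HN (by linarith) hl]
    have h5 : NN T ≤ T := by
      unfold NN
      exact div_le_self (by linarith) (one_le_pow₀ (by linarith))
    have h6 : 1 * Real.log T ^ 2 ≤ Real.log T ^ 4 / 4 := by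
      have : 4 ≤ Real.log T ^ 2 := by nlinarith
      nlinarith [sq_nonneg (Real.log T)]
    gcongr

/-- error of the tails of the window -/
def tl (p : ℕ) (T : ℝ) : ℝ := (2 * T) * (30 ^ p * (Kp p * ((1 + 2 * T) * HH T) ^ (2 * p + 2)) *
      Real.exp (-((RR T) ^ 2 / (2 * (HH T) ^ 2))) * Real.pi)

lemma RH {T : ℝ} (hT : 0 < T) (hl : 0 < Real.log T) :
    (RR T) ^ 2 / (2 * (HH T) ^ 2) = Real.log T ^ 2 / 2 := by
  unfold HH RR
  field_simp

lemma tl_tendsto (p : ℕ) : Tendsto (tl p) atTop (𝓝 0) := by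
  have h := (small0 (4 * p + 5) (b := 1 / 2) (by norm_num)).const_mul
    (2 * (30 ^ p * (Kp p * 3 ^ (2 * p + 2))) * Real.pi)
  rw [mul_zero] at h
  have hK := Kp_pos p
  refine squeeze_zero' ?_ ?_ h
  · filter_upwards [ev_basic] with T hb
    obtain ⟨h4, h1, _⟩ := hb
    have hl : 0 < Real.log T := by linarith
    unfold tl HH
    positivity
  · filter_upwards [ev_basic] with T hb
    obtain ⟨h4, h1, _⟩ := hb
    have hl : 0 < Real.log T := by linarith
    unfold tl
    rw [RH (by linarith) hl]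
    have h5 : HH T ≤ T := by
      unfold HH
      exact div_le_self (by linarith) (one_le_pow₀ (by linarith))
    have h50 : 0 ≤ HH T := by unfold HH; positivity
    have h6 : (1 + 2 * T) * HH T ≤ 3 * T ^ 2 := by nlinarith
    have h7 : ((1 + 2 * T) * HH T) ^ (2 * p + 2) ≤ 3 ^ (2 * p + 2) * T ^ (4 * p + 4) := by
      calc ((1 + 2 * T) * HH T) ^ (2 * p + 2) ≤ (3 * T ^ 2) ^ (2 * p + 2) := by gcongr
        _ = 3 ^ (2 * p + 2) * T ^ (4 * p + 4) := by
            rw [mul_pow, ← pow_mul]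
            congr 2
            ring
    have e1 : Real.log T ^ 2 / 2 = 1 / 2 * Real.log T ^ 2 := by ring
    rw [e1]
    calc (2 * T) * (30 ^ p * (Kp p * ((1 + 2 * T) * HH T) ^ (2 * p + 2)) *
        Real.exp (-(1 / 2 * Real.log T ^ 2)) * Real.pi)
        ≤ (2 * T) * (30 ^ p * (Kp p * (3 ^ (2 * p + 2) * T ^ (4 * p + 4))) *
        Real.exp (-(1 / 2 * Real.log T ^ 2)) * Real.pi) := by gcongr
      _ = _ := by ring

/-- the mean square of `gS` in all windows -/
theorem S_up (hn : 2 ≤ n) (hp : 0 < p) {c ε : ℝ} (hc : 0 ≤ c) (hε : 0 < ε) :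
    ∀ᶠ T : ℝ in atTop, ∀ τ : ℝ, VV (gS n p (NN T) τ (HH T)) (2 / (n : ℝ)) (1 / 2 + c / Real.log T) ≤
      (aF (kk n p) * Ph (kk n p) c + ε) * Real.log T ^ (kk n p ^ 2) := by
  have hn' : 0 < n := by omega
  have hκ := kk_pos hn' hp
  set κ := kk n p with hκdef
  have h1 := DPx_tendsto hκ hc
  have hW : Tendsto (fun T : ℝ => Real.log T ^ (κ ^ 2)) atTop atTop :=
    (tendsto_rpow_atTop (by positivity)).comp Real.tendsto_log_atTop
  have h2 : Tendsto (fun T : ℝ => Ex p T / Real.log T ^ (κ ^ 2)) atTop (𝓝 0) :=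
    (Ex_tendsto p).div_atTop hW
  have h3 : Tendsto (fun T : ℝ => Real.exp (1 / (HH T) ^ 2)) atTop (𝓝 1) := by
    have h4 : Tendsto (fun T : ℝ => 1 / (HH T) ^ 2) atTop (𝓝 0) :=
      tendsto_const_nhds.div_atTop ((tendsto_pow_atTop (by norm_num)).comp HH_tendsto)
    have := (Real.continuous_exp.tendsto 0).comp h4
    simpa [Function.comp_def] using this
  have h5 := h3.mul (h1.add h2)
  rw [add_zero, one_mul] at h5
  filter_upwards [h5.eventually_lt_const (show aF κ * Ph κ c < aF κ * Ph κ c + ε by linarith),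
    ev_basic, log_NN_le, HH_tendsto.eventually_ge_atTop 1,
    (log_div_tendsto c).eventually (gt_mem_nhds (show (0 : ℝ) < 1 / 2 by norm_num))] with T g1 hb hN hH hc2 τ
  obtain ⟨b4, b1, _⟩ := hb
  obtain ⟨n1, n2, n3⟩ := hN
  have hl : 0 < Real.log T := by linarith
  have hcl : 0 ≤ c / Real.log T := by positivity
  have hW0 : 0 < Real.log T ^ (κ ^ 2) := Real.rpow_pos_of_pos hl _
  have u1 := gS_upper (p := p) hn' n3.le τ (HH T) (by linarith)
    (x := 1 / 2 + c / Real.log T) (by linarith)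
  have u2 := QP_sub_DP (p := p) hn' n3.le τ (HH T) (by linarith) (x := 1 / 2 + c / Real.log T)
    (by linarith)
  have u3 := (abs_le.mp u2).2
  have u4 : Real.exp ((1 / 2 + c / Real.log T - 1 / 2) ^ 2 / HH T ^ 2) ≤ Real.exp (1 / (HH T) ^ 2) := by
    apply Real.exp_le_exp.mpr
    apply div_le_div_of_nonneg_right _ (by positivity)
    nlinarith
  have u5 : QP n p (NN T) τ (HH T) (1 / 2 + c / Real.log T) ≤
      DP κ (NN T) (1 / 2 + c / Real.log T) + Ex p T := by
    unfold Ex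
    linarith
  have u6 : 0 ≤ QP n p (NN T) τ (HH T) (1 / 2 + c / Real.log T) :=
    integral_nonneg fun y => mul_nonneg (by positivity) (gw_nonneg _ _ _ (by linarith))
  have u7 : VV (gS n p (NN T) τ (HH T)) (2 / (n : ℝ)) (1 / 2 + c / Real.log T) ≤
      Real.exp (1 / (HH T) ^ 2) * (DP κ (NN T) (1 / 2 + c / Real.log T) + Ex p T) :=
    u1.trans (mul_le_mul u4 u5 u6 (Real.exp_pos _).le)
  refine u7.trans ?_
  have e : Real.exp (1 / (HH T) ^ 2) * (DP κ (NN T) (1 / 2 + c / Real.log T) + Ex p T) =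
      Real.exp (1 / (HH T) ^ 2) * (DP κ (NN T) (1 / 2 + c / Real.log T) / Real.log T ^ (κ ^ 2) +
        Ex p T / Real.log T ^ (κ ^ 2)) * Real.log T ^ (κ ^ 2) := by
    field_simp
  rw [e]
  exact mul_le_mul_of_nonneg_right g1.le hW0.le

theorem S_lo (hn : 2 ≤ n) (hp : 0 < p) {c ε η : ℝ} (hc : 0 ≤ c) (hε : 0 < ε) (hη : 0 < η) :
    ∀ᶠ T : ℝ in atTop, ∀ τ : ℝ, η * T ≤ τ →
      (aF (kk n p) * Ph (kk n p) c - ε) * Real.log T ^ (kk n p ^ 2) ≤
      VV (gS n p (NN T) τ (HH T)) (2 / (n : ℝ)) (1 / 2 + c / Real.log T) := by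
  have hn' : 0 < n := by omega
  have hκ := kk_pos hn' hp
  set κ := kk n p with hκdef
  have h1 := DPx_tendsto hκ hc
  have hW : Tendsto (fun T : ℝ => Real.log T ^ (κ ^ 2)) atTop atTop :=
    (tendsto_rpow_atTop (by positivity)).comp Real.tendsto_log_atTop
  have h2 : Tendsto (fun T : ℝ => Ex p T / Real.log T ^ (κ ^ 2)) atTop (𝓝 0) :=
    (Ex_tendsto p).div_atTop hW
  have h3 : Tendsto (fun T : ℝ => 1 - 4 * p / (η * T)) atTop (𝓝 1) := by
    have h4 : Tendsto (fun T : ℝ => 4 * p / (η * T)) atTop (𝓝 0) :=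
      tendsto_const_nhds.div_atTop (tendsto_id.const_mul_atTop hη)
    have := h4.const_sub 1
    simpa using this
  have h6 : Tendsto (fun T : ℝ => 2 * (T ^ (2 * p + 2) * Real.exp (-(1 * Real.log T ^ 2))) /
      Real.log T ^ (κ ^ 2)) atTop (𝓝 0) := by
    have := ((small0 (2 * p + 2) (b := 1) (by norm_num)).const_mul 2)
    rw [mul_zero] at this
    exact this.div_atTop hW
  have h5 := (h3.mul (h1.sub h2)).sub h6
  rw [sub_zero, one_mul, sub_zero] at h5
  filter_upwards [h5.eventually_const_lt (show aF κ * Ph κ c - ε < aF κ * Ph κ c by linarith),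
    ev_basic, log_NN_le, HH_tendsto.eventually_ge_atTop 1,
    h3.eventually_const_lt (show (0 : ℝ) < 1 by norm_num),
    (tendsto_id.const_mul_atTop hη).eventually_ge_atTop 2,
    Real.tendsto_log_atTop.eventually_ge_atTop (4 / η)] with T g1 hb hN hH h30 hη2 hη4 τ hτ
  obtain ⟨b4, b1, _⟩ := hb
  obtain ⟨n1, n2, n3⟩ := hN
  have hl : 0 < Real.log T := by linarith
  have hT0 : 0 < T := by linarith
  have hηT : 0 < η * T := by positivity
  have hcl : 0 ≤ c / Real.log T := by positivity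
  have hW0 : 0 < Real.log T ^ (κ ^ 2) := Real.rpow_pos_of_pos hl _
  simp only [id] at hη2
  have hτ2 : 2 ≤ τ := by linarith
  have u1 := gS_lower (p := p) hn n3.le hτ2 (H := HH T) (by linarith)
    (x := 1 / 2 + c / Real.log T) (by linarith)
  have u2 := QP_sub_DP (p := p) hn' n3.le τ (HH T) (by linarith) (x := 1 / 2 + c / Real.log T)
    (by linarith)
  have u3 := (abs_le.mp u2).1
  set Q := QP n p (NN T) τ (HH T) (1 / 2 + c / Real.log T) with hQ
  set D := DP κ (NN T) (1 / 2 + c / Real.log T) with hD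
  have u6 : 0 ≤ Q := integral_nonneg fun y => mul_nonneg (by positivity) (gw_nonneg _ _ _ (by linarith))
  have u5 : D - Ex p T ≤ Q := by
    unfold Ex
    linarith
  have u7 : (1 - 4 * p / (η * T)) * (D - Ex p T) ≤ (1 - 4 * p / τ) * Q := by
    have v1 : 4 * p / τ ≤ 4 * p / (η * T) := by gcongr
    calc (1 - 4 * p / (η * T)) * (D - Ex p T) ≤ (1 - 4 * p / (η * T)) * Q :=
          mul_le_mul_of_nonneg_left u5 h30.le
      _ ≤ _ := by
          apply mul_le_mul_of_nonneg_right _ u6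
          linarith
  have u8 : 2 * ((NN T) ^ (p + 1)) ^ 2 * Real.exp (-(τ ^ 2 / (8 * (HH T) ^ 2))) ≤
      2 * (T ^ (2 * p + 2) * Real.exp (-(1 * Real.log T ^ 2))) := by
    have v1 : NN T ≤ T := by
      unfold NN
      exact div_le_self (by linarith) (one_le_pow₀ (by linarith))
    have v2 : ((NN T) ^ (p + 1)) ^ 2 ≤ T ^ (2 * p + 2) := by
      calc ((NN T) ^ (p + 1)) ^ 2 ≤ (T ^ (p + 1)) ^ 2 := by gcongr
        _ = _ := by rw [← pow_mul]; congr 1; ring
    have v3 : 1 * Real.log T ^ 2 ≤ τ ^ 2 / (8 * (HH T) ^ 2) := by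
      have w1 : (η * T) ^ 2 / (8 * (HH T) ^ 2) ≤ τ ^ 2 / (8 * (HH T) ^ 2) := by gcongr
      refine le_trans ?_ w1
      have w2 : (η * T) ^ 2 / (8 * (HH T) ^ 2) = (η * Real.log T) ^ 2 * Real.log T ^ 2 / 8 := by
        unfold HH
        field_simp
      rw [w2]
      have w3 : 4 ≤ η * Real.log T := by
        rw [div_le_iff₀ hη] at hη4
        linarith
      have w4 : 16 ≤ (η * Real.log T) ^ 2 := by nlinarith
      nlinarith [sq_nonneg (Real.log T)]
    calc 2 * ((NN T) ^ (p + 1)) ^ 2 * Real.exp (-(τ ^ 2 / (8 * (HH T) ^ 2))) =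
        2 * (((NN T) ^ (p + 1)) ^ 2 * Real.exp (-(τ ^ 2 / (8 * (HH T) ^ 2)))) := by ring
      _ ≤ _ := by gcongr
  refine le_trans ?_ u1
  have e : ((1 - 4 * p / (η * T)) * (D / Real.log T ^ (κ ^ 2) - Ex p T / Real.log T ^ (κ ^ 2)) -
      2 * (T ^ (2 * p + 2) * Real.exp (-(1 * Real.log T ^ 2))) / Real.log T ^ (κ ^ 2)) *
      Real.log T ^ (κ ^ 2) = (1 - 4 * p / (η * T)) * (D - Ex p T) -
        2 * (T ^ (2 * p + 2) * Real.exp (-(1 * Real.log T ^ 2))) := by
    field_simp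
  have g2 := mul_le_mul_of_nonneg_right g1.le hW0.le
  rw [e] at g2
  linarith

end

end Pool.Agent.H7.NR
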