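import Pool.Agent.H7.NR.E
import Pool.Graph.R_pool_sql_team_seeded_620a6dc7.Helper156_SP.Der11

set_option autoImplicit false

/-!
The main inequality for averages of windows.
-/

open Filter MeasureTheory Metric Set Topology
open Pool.Agent.H306R2 Pool.Agent.Q255.FM

namespace Pool.Agent.H7.NR

noncomputable section

variable {n p : ℕ}

/-- the order of magnitude -/
def WW (n p : ℕ) (T : ℝ) : ℝ := Real.log T ^ (kk n p ^ 2)

/-- the exponent of `|ζ|` -/
def ex (n p : ℕ) : ℝ := 2 * (p : ℝ) / (n : ℝ)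

lemma ex_sq (n p : ℕ) : (ex n p) ^ 2 / 4 = kk n p ^ 2 := by
  unfold ex kk
  ring

lemma az_eq (t : ℝ) : Pool.Agent.Helper156_SP.az t = ‖riemannZeta (((1 / 2 : ℝ) : ℂ) + t * Complex.I)‖ := by
  unfold Pool.Agent.Helper156_SP.az
  congr 3
  push_cast
  ring

/-- the averages on the critical line have the right order -/
theorem JJ_half (hn : 2 ≤ n) (hp : 0 < p) (hk : 2 * (p : ℝ) / (n : ℝ) ≤ 4) :
    ∃ C : ℝ, 0 < C ∧ ∀ᶠ T : ℝ in atTop, ∀ a b : ℝ, RR T ≤ a → a ≤ b → b + RR T ≤ 2 * T →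
      JJ n p (1 / 2) (HH T) a b ≤ C * (T * WW n p T) := by
  have hn' : 0 < n := by omega
  have hκ := kk_pos hn' hp
  have hk0 : 0 < ex n p := by unfold ex; positivity
  obtain ⟨C, hC, h⟩ := Pool.Agent.Helper156_SP.mom_upper_all hk0 hk
  have hW : Tendsto (fun T : ℝ => Real.log T ^ (kk n p ^ 2)) atTop atTop :=
    (tendsto_rpow_atTop (by positivity)).comp Real.tendsto_log_atTop
  refine ⟨4 * 2 ^ (kk n p ^ 2) * C + 1, by positivity, ?_⟩
  filter_upwards [(tendsto_id.const_mul_atTop (show (0 : ℝ) < 2 by norm_num)).eventually h, ev_basic,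
    (tl_tendsto p).eventually_lt_const (show (0 : ℝ) < 1 by norm_num), HH_tendsto.eventually_ge_atTop 1,
    hW.eventually_ge_atTop 1] with T g1 hb ht hH hW1 a b ha hab hbT
  obtain ⟨b4, b1, _⟩ := hb
  have hl : 0 < Real.log T := by linarith
  have hT0 : 0 < T := by linarith
  have hR : 0 < RR T := by unfold RR; positivity
  have u1 := JJ_upper (p := p) hn (x := 1 / 2) (by norm_num) (by norm_num) hH hR.le (by linarith) hab
  have u2 : ∫ t in (a - RR T)..(b + RR T), GX n p (1 / 2) t ≤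
      ∫ t in (0 : ℝ)..(2 * T), Pool.Agent.Helper156_SP.az t ^ (ex n p) := by
    have v1 : ∀ t, GX n p (1 / 2) t ≤ Pool.Agent.Helper156_SP.az t ^ (ex n p) := by
      intro t
      rw [az_eq]
      have := GX_le (n := n) (p := p) (x := 1 / 2) (by norm_num) (by norm_num) t
      rwa [zpow_eq] at this
    have v2 := Pool.Agent.Helper156_SP.azp_cont hk0
    have v3 : ∀ t, 0 ≤ Pool.Agent.Helper156_SP.az t ^ (ex n p) :=
      fun t => Real.rpow_nonneg (Pool.Agent.Helper156_SP.az_nonneg t) _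
    calc ∫ t in (a - RR T)..(b + RR T), GX n p (1 / 2) t ≤
        ∫ t in (a - RR T)..(b + RR T), Pool.Agent.Helper156_SP.az t ^ (ex n p) :=
          intervalIntegral.integral_mono_on (by linarith)
            ((GX_continuous (by norm_num)).intervalIntegrable _ _) (v2.intervalIntegrable _ _)
            fun t _ => v1 t
      _ ≤ ∫ t in (0 : ℝ)..(2 * T), Pool.Agent.Helper156_SP.az t ^ (ex n p) :=
          intervalIntegral.integral_mono_interval (by linarith) (by linarith) hbT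
            (Eventually.of_forall v3) (v2.intervalIntegrable _ _)
  have u3 : (b - a) * (30 ^ p * (Kp p * ((1 + b) * HH T) ^ (2 * p + 2)) *
      Real.exp (-(RR T ^ 2 / (2 * HH T ^ 2))) * Real.pi) ≤ tl p T := by
    unfold tl
    have hK := Kp_pos p
    have v1 : b - a ≤ 2 * T := by linarith
    have v2 : 0 ≤ b := by linarith
    have v3 : 1 + b ≤ 1 + 2 * T := by linarith
    gcongr
  simp only [id] at g1
  rw [ex_sq] at g1
  have u4 : C * (2 * T * Real.log (2 * T) ^ (kk n p ^ 2)) ≤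
      4 * 2 ^ (kk n p ^ 2) * C * (T * WW n p T) := by
    have v1 : Real.log (2 * T) ≤ 2 * Real.log T := by
      rw [Real.log_mul (by norm_num) (by linarith)]
      have := Real.log_two_lt_d9
      linarith
    have v0 : 0 ≤ Real.log (2 * T) := Real.log_nonneg (by linarith)
    have v2 : Real.log (2 * T) ^ (kk n p ^ 2) ≤ 2 ^ (kk n p ^ 2) * WW n p T := by
      unfold WW
      rw [← Real.mul_rpow (by norm_num) hl.le]
      exact Real.rpow_le_rpow v0 v1 (by positivity)
    have v3 : 0 ≤ WW n p T := by unfold WW; positivity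
    calc C * (2 * T * Real.log (2 * T) ^ (kk n p ^ 2)) ≤ C * (2 * T * (2 ^ (kk n p ^ 2) * WW n p T)) := by
          gcongr
      _ = 2 * 2 ^ (kk n p ^ 2) * C * (T * WW n p T) := by ring
      _ ≤ _ := by gcongr; norm_num
  have u5 : 1 ≤ T * WW n p T := one_le_mul_of_one_le_of_one_le b1.le hW1
  have u6 := u1.trans (add_le_add (u2.trans (g1.trans u4)) (u3.trans ht.le))
  calc _ ≤ _ := u6
    _ ≤ _ := by rw [add_mul]; linarith

/-- main inequality for averages -/
theorem block (hn : 2 ≤ n) (hp : 0 < p) (hk : 2 * (p : ℝ) / (n : ℝ) ≤ 4) :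
    ∃ C : ℝ, 0 < C ∧ ∀ c ε η : ℝ, 0 < c → 0 < ε → 0 < η → ∀ᶠ T : ℝ in atTop,
      ∀ a b : ℝ, η * T ≤ a → a ≤ b → b + RR T ≤ 2 * T →
      JJ n p (1 / 2 + c / Real.log T) (HH T) a b ≤
        (b - a) * ((aF (kk n p) * Ph (kk n p) c + ε) * WW n p T) +
          C * Real.exp (-(2 / (n : ℝ) * c)) * (T * WW n p T) ∧
      (b - a) * ((aF (kk n p) * Ph (kk n p) c - ε) * WW n p T) -
          C * Real.exp (-(2 / (n : ℝ) * c)) * (T * WW n p T) ≤
        Real.exp (1 / HH T ^ 2) * JJ n p (1 / 2 + c / Real.log T) (HH T) a b := by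
  have hn' : 0 < n := by omega
  have hn0 : (0 : ℝ) < n := by exact_mod_cast hn'
  have hκ := kk_pos hn' hp
  obtain ⟨CJ, hCJ, hJ⟩ := JJ_half hn hp hk
  set κ := kk n p with hκdef
  set q : ℝ := 2 / (n : ℝ) with hq
  have hq0 : 0 < q := by positivity
  have hPh0 : 0 ≤ aF κ * Ph κ 0 := by
    have h1 := (aF_pos hκ).le
    have h2 : 0 ≤ Ph κ 0 := by
      unfold Ph
      refine integral_nonneg fun u => ?_
      have g0 := gd_nonneg (m := κ ^ 2) (by positivity) u
      have c0 := ct_nonneg 1 u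
      show 0 ≤ gd (κ ^ 2) u * (ct 1 u * Real.exp (-(2 * 0 * u)))
      positivity
    positivity
  set S₀ : ℝ := aF κ * Ph κ 0 + 1 with hS₀
  have hS₀0 : 0 < S₀ := by linarith
  refine ⟨4 * (CJ + 2 * (S₀ + 1)), by positivity, fun c ε η hc hε hη => ?_⟩
  obtain ⟨N₀, hK⟩ := K_line (p := p) hn' hc (ε := 1) one_pos le_rfl
  have hW : Tendsto (fun T : ℝ => Real.log T ^ (κ ^ 2)) atTop atTop :=
    (tendsto_rpow_atTop (by positivity)).comp Real.tendsto_log_atTop
  have hexp : Tendsto (fun T : ℝ => Real.exp (-(q * (c * (Real.log (NN T) / Real.log T))))) atTop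
      (𝓝 (Real.exp (-(q * c)))) := by
    have h1 : Tendsto (fun T : ℝ => -(q * (c * (Real.log (NN T) / Real.log T)))) atTop (𝓝 (-(q * c))) := by
      have := ((log_NN_div.const_mul c).const_mul q).neg
      simpa using this
    exact (Real.continuous_exp.tendsto _).comp h1
  have hE := Real.exp_pos (-(q * c))
  filter_upwards [hJ, S_up hn hp (c := 0) le_rfl one_pos, S_up hn hp hc.le hε, S_lo hn hp hc.le hε hη,
    ev_basic, log_NN_le, HH_tendsto.eventually_ge_atTop 1, hW.eventually_ge_atTop 1,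
    NN_tendsto.eventually_ge_atTop N₀,
    hexp.eventually_lt_const (show Real.exp (-(q * c)) < 2 * Real.exp (-(q * c)) by linarith),
    (log_div_tendsto c).eventually (gt_mem_nhds (show (0 : ℝ) < 1 / 2 by norm_num)),
    Real.tendsto_log_atTop.eventually_ge_atTop (1 / η)]
    with T gJ gS0 gSu gSl hb hN hH hW1 hNN hex hc2 hlη a b ha hab hbT
  obtain ⟨b4, b1, _⟩ := hb
  obtain ⟨n1, n2, n3⟩ := hN
  have hl : 0 < Real.log T := by linarith
  have hT0 : 0 < T := by linarith
  have hR0 : 0 < RR T := by unfold RR; positivity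
  have hRη : RR T ≤ η * T := by
    unfold RR
    rw [div_le_iff₀ hl]
    rw [div_le_iff₀ hη] at hlη
    calc T = 1 * T := (one_mul T).symm
      _ ≤ (Real.log T * η) * T := mul_le_mul_of_nonneg_right hlη hT0.le
      _ = _ := by ring
  have hcl : 0 < c / Real.log T := by positivity
  have hH0 : 0 < HH T := by linarith
  set W := WW n p T with hWdef
  have hW1' : 1 ≤ W := hW1
  set x : ℝ := 1 / 2 + c / Real.log T with hx
  have hx0 : 0 < x := by linarith
  have hx4 : 1 / 4 ≤ x := by linarith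
  have hx1 : x ≤ 1 := by linarith
  set d : ℝ := c * (Real.log (NN T) / Real.log T) with hd
  have hd0 : 0 < d := by positivity
  have hdc : d ≤ c := by
    have : Real.log (NN T) / Real.log T ≤ 1 := by rw [div_le_one hl]; exact n1
    calc d ≤ c * 1 := by rw [hd]; gcongr
      _ = c := mul_one c
  have hxd : x = 1 / 2 + d / Real.log (NN T) := by
    rw [hx, hd]
    field_simp
  have hJh := gJ a b (by linarith) hab hbT
  simp only [zero_div, add_zero] at gS0
  -- pointwise
  have hpt : ∀ τ ∈ Ioc a b,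
      (∫ t : ℝ, GX n p x t * gw τ (HH T) t) ≤ (aF κ * Ph κ c + ε) * W +
        4 * Real.exp (-(q * c)) * ((∫ t : ℝ, GX n p (1 / 2) t * gw τ (HH T) t) + (S₀ + 1) * W) ∧
      (aF κ * Ph κ c - ε) * W -
        4 * Real.exp (-(q * c)) * ((∫ t : ℝ, GX n p (1 / 2) t * gw τ (HH T) t) + (S₀ + 1) * W) ≤
        Real.exp (1 / HH T ^ 2) * ∫ t : ℝ, GX n p x t * gw τ (HH T) t := by
    intro τ hτ
    have t1 := tri1 (p := p) hn n3.le τ (HH T) hH0 hx0
    have t2 := (tri1 (p := p) hn n3.le τ (HH T) hH0 (x := 1 / 2) (by norm_num)).2.2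
    have eJ := VV_lineP (p := p) hn' x τ (HH T) hH0
    have eJ2 := VV_lineP (p := p) hn' (1 / 2) τ (HH T) hH0
    rw [sub_self, zero_pow two_ne_zero, zero_div, Real.exp_zero, one_mul] at eJ2
    set I := ∫ t : ℝ, GX n p x t * gw τ (HH T) t with hI
    set I2 := ∫ t : ℝ, GX n p (1 / 2) t * gw τ (HH T) t with hI2
    have hI0 : 0 ≤ I := integral_nonneg fun t => mul_nonneg (GX_nonneg n p x t) (gw_nonneg _ _ _ hH0)
    have hI20 : 0 ≤ I2 := integral_nonneg fun t => mul_nonneg (GX_nonneg n p _ t) (gw_nonneg _ _ _ hH0)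
    have s0 := gS0 τ
    have s1 := gSu τ
    have s2 := gSl τ (by linarith [hτ.1])
    have hWW : Real.log T ^ (kk n p ^ 2) = W := rfl
    rw [hWW] at s0 s1 s2
    have hX : VV (gK n p (NN T) τ (HH T)) (2 / (n : ℝ)) (1 / 2) ≤ I2 + (S₀ + 1) * W := by
      rw [eJ2] at t2
      refine t2.trans ?_
      have : (S₀ + 1) * W = S₀ * W + W := by ring
      linarith
    have hX1 : 1 ≤ I2 + (S₀ + 1) * W := by
      have : 1 ≤ (S₀ + 1) * W := one_le_mul_of_one_le_of_one_le (by linarith) hW1'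
      linarith
    have k1 := hK (NN T) τ (HH T) x d (I2 + (S₀ + 1) * W) hNN hH hd0 hdc hxd hX1 hX
    have k2 : VV (gK n p (NN T) τ (HH T)) (2 / (n : ℝ)) x ≤
        4 * Real.exp (-(q * c)) * (I2 + (S₀ + 1) * W) := by
      refine k1.trans ?_
      have : (1 + 1) * Real.exp (-(q * d)) ≤ 4 * Real.exp (-(q * c)) := by
        have := hex.le
        linarith
      exact mul_le_mul_of_nonneg_right this (by linarith)
    have e1 : 1 ≤ Real.exp ((x - 1 / 2) ^ 2 / HH T ^ 2) := Real.one_le_exp (by positivity)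
    have e2 : Real.exp ((x - 1 / 2) ^ 2 / HH T ^ 2) ≤ Real.exp (1 / HH T ^ 2) := by
      apply Real.exp_le_exp.mpr
      apply div_le_div_of_nonneg_right _ (by positivity)
      exact pow_le_one₀ (by linarith) (by linarith)
    have e3 : I ≤ VV (NR.gJ n p τ (HH T)) (2 / (n : ℝ)) x := by
      rw [eJ]
      exact le_mul_of_one_le_left hI0 e1
    have e4 : VV (NR.gJ n p τ (HH T)) (2 / (n : ℝ)) x ≤ Real.exp (1 / HH T ^ 2) * I := by
      rw [eJ]
      exact mul_le_mul_of_nonneg_right e2 hI0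
    constructor
    · linarith [t1.1]
    · linarith [t1.2.1]
  -- integration
  have i1 := inner_integrable (p := p) hn hx4 hx1 hH a b
  have i2 := inner_integrable (p := p) hn (x := 1 / 2) (by norm_num) (by norm_num) hH a b
  have hvol : (volume.real (Ioc a b)) = b - a := Real.volume_real_Ioc_of_le hab
  have hci : ∀ C' : ℝ, IntegrableOn (fun _ : ℝ => C') (Ioc a b) := fun C' => continuous_const.integrableOn_Ioc
  have i3 : IntegrableOn (fun τ => (∫ t : ℝ, GX n p (1 / 2) t * gw τ (HH T) t) + (S₀ + 1) * W) (Ioc a b) :=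
    i2.add (hci _)
  have e3 : ∫ τ in Ioc a b, ((∫ t : ℝ, GX n p (1 / 2) t * gw τ (HH T) t) + (S₀ + 1) * W) =
      JJ n p (1 / 2) (HH T) a b + (b - a) * ((S₀ + 1) * W) := by
    rw [integral_add i2 (hci _), setIntegral_const, hvol]
    rfl
  have hηT0 : 0 < η * T := by positivity
  have hba : b - a ≤ 2 * T := by linarith
  have hTW : 0 ≤ T * W := by positivity
  have hfinal : 4 * Real.exp (-(q * c)) * (JJ n p (1 / 2) (HH T) a b + (b - a) * ((S₀ + 1) * W)) ≤
      4 * (CJ + 2 * (S₀ + 1)) * Real.exp (-(q * c)) * (T * W) := by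
    have v1 : (b - a) * ((S₀ + 1) * W) ≤ 2 * T * ((S₀ + 1) * W) := by gcongr
    have v2 : JJ n p (1 / 2) (HH T) a b + (b - a) * ((S₀ + 1) * W) ≤ (CJ + 2 * (S₀ + 1)) * (T * W) := by
      linarith
    calc _ ≤ 4 * Real.exp (-(q * c)) * ((CJ + 2 * (S₀ + 1)) * (T * W)) := by gcongr
      _ = _ := by ring
  constructor
  · have h1 : JJ n p x (HH T) a b ≤ ∫ τ in Ioc a b, ((aF κ * Ph κ c + ε) * W +
        4 * Real.exp (-(q * c)) * ((∫ t : ℝ, GX n p (1 / 2) t * gw τ (HH T) t) + (S₀ + 1) * W)) :=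
      setIntegral_mono_on i1 ((hci _).add (i3.const_mul _)) measurableSet_Ioc
        fun τ hτ => (hpt τ hτ).1
    have h2 : ∫ τ in Ioc a b, ((aF κ * Ph κ c + ε) * W +
        4 * Real.exp (-(q * c)) * ((∫ t : ℝ, GX n p (1 / 2) t * gw τ (HH T) t) + (S₀ + 1) * W)) =
        (b - a) * ((aF κ * Ph κ c + ε) * W) +
        4 * Real.exp (-(q * c)) * (JJ n p (1 / 2) (HH T) a b + (b - a) * ((S₀ + 1) * W)) := by
      rw [integral_add (hci _) (i3.const_mul _), setIntegral_const, hvol, smul_eq_mul,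
        integral_const_mul, e3]
    rw [h2] at h1
    linarith
  · have h1 : ∫ τ in Ioc a b, ((aF κ * Ph κ c - ε) * W -
        4 * Real.exp (-(q * c)) * ((∫ t : ℝ, GX n p (1 / 2) t * gw τ (HH T) t) + (S₀ + 1) * W)) ≤
        ∫ τ in Ioc a b, Real.exp (1 / HH T ^ 2) * ∫ t : ℝ, GX n p x t * gw τ (HH T) t :=
      setIntegral_mono_on ((hci _).sub (i3.const_mul _)) (i1.const_mul _) measurableSet_Ioc
        fun τ hτ => (hpt τ hτ).2
    have h2 : ∫ τ in Ioc a b, ((aF κ * Ph κ c - ε) * W -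
        4 * Real.exp (-(q * c)) * ((∫ t : ℝ, GX n p (1 / 2) t * gw τ (HH T) t) + (S₀ + 1) * W)) =
        (b - a) * ((aF κ * Ph κ c - ε) * W) -
        4 * Real.exp (-(q * c)) * (JJ n p (1 / 2) (HH T) a b + (b - a) * ((S₀ + 1) * W)) := by
      rw [integral_sub (hci _) (i3.const_mul _), setIntegral_const, hvol, smul_eq_mul,
        integral_const_mul, e3]
    rw [h2, integral_const_mul] at h1
    have h3 : ∫ τ in Ioc a b, ∫ t : ℝ, GX n p x t * gw τ (HH T) t = JJ n p x (HH T) a b := rfl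
    rw [h3] at h1
    linarith

end

end Pool.Agent.H7.NR
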