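import Pool.Agent.H7.NR.F

set_option autoImplicit false

/-!
From averages of windows to the interval `[0, T]`.
-/

open Filter MeasureTheory Metric Set Topology
open Pool.Agent.H306R2 Pool.Agent.Q255.FM

namespace Pool.Agent.H7.NR

noncomputable section

variable {n p : ℕ}

/-- `|ζ(x+it)|^{2p/n}` -/
def ZX (n p : ℕ) (x t : ℝ) : ℝ := ‖riemannZeta ((x : ℂ) + t * Complex.I)‖ ^ (ex n p)

lemma ZX_nonneg (n p : ℕ) (x t : ℝ) : 0 ≤ ZX n p x t := by unfold ZX; positivity

lemma ZX_cont {x : ℝ} (hx1 : x < 1) : Continuous (ZX n p x) :=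
  zeta_line_continuous hx1 _ (by unfold ex; positivity)

/-- the beginning of the interval -/
theorem low_part (hn : 2 ≤ n) (hp : 0 < p) (hk : 2 * (p : ℝ) / (n : ℝ) ≤ 4) {c : ℝ} (hc : 0 < c) :
    ∃ K : ℝ, 0 < K ∧ ∀ η : ℝ, 0 < η → η ≤ 1 / 2 → ∀ᶠ T : ℝ in atTop,
      ∫ t in (0 : ℝ)..(η * T), ZX n p (1 / 2 + c / Real.log T) t ≤ K * η * (T * WW n p T) := by
  have hn' : 0 < n := by omega
  have hκ := kk_pos hn' hp
  have hk0 : 0 < ex n p := by unfold ex; positivity
  obtain ⟨C, hC, h⟩ := Pool.Agent.Helper156_SP.mom_upper_all hk0 hk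
  obtain ⟨K₀, W₀, hK₀, hW₀, hl0⟩ := Pool.Agent.Helper156_SP.line_low hk0 (R₀ := max 1 c) (le_max_left _ _)
  have hW : Tendsto (fun T : ℝ => Real.log T ^ (kk n p ^ 2)) atTop atTop :=
    (tendsto_rpow_atTop (by positivity)).comp Real.tendsto_log_atTop
  refine ⟨K₀ + 2 * K₀ * C, by positivity, fun η hη hη2 => ?_⟩
  have ht1 : Tendsto (fun T : ℝ => η * T) atTop atTop := tendsto_id.const_mul_atTop hη
  have ht2 : Tendsto (fun T : ℝ => (2 * η) * T) atTop atTop := tendsto_id.const_mul_atTop (by linarith)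
  filter_upwards [ht1.eventually hl0, ht2.eventually h, ev_basic, hW.eventually_ge_atTop 1,
    (log_div_tendsto c).eventually (gt_mem_nhds (show (0 : ℝ) < 1 / 16 by norm_num)),
    ht1.eventually_ge_atTop W₀, ht1.eventually_gt_atTop 1] with T g1 g2 hb hW1 hc2 hTW hT1
  obtain ⟨b4, b1, _⟩ := hb
  have hl : 0 < Real.log T := by linarith
  have hT0 : 0 < T := by linarith
  have hcl : 0 < c / Real.log T := by positivity
  have hll : 0 < Real.log (η * T) := Real.log_pos hT1
  have hlog : Real.log (η * T) ≤ Real.log T := Real.log_le_log (by linarith) (by nlinarith)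
  have v1 : c / Real.log T ≤ max 1 c / Real.log (η * T) := by
    calc c / Real.log T ≤ max 1 c / Real.log T := by
          gcongr
          exact le_max_right _ _
      _ ≤ _ := by gcongr
  have v2 := g1 (c / Real.log T) hcl hc2.le v1
  have v3 : ∫ t in (0:ℝ)..(η * T + W₀), Pool.Agent.Helper156_SP.az t ^ (ex n p) ≤
      ∫ t in (0:ℝ)..(2 * η * T), Pool.Agent.Helper156_SP.az t ^ (ex n p) := by
    refine intervalIntegral.integral_mono_interval le_rfl (by linarith) (by linarith)
      (Eventually.of_forall fun t => Real.rpow_nonneg (Pool.Agent.Helper156_SP.az_nonneg t) _)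
      ((Pool.Agent.Helper156_SP.azp_cont hk0).intervalIntegrable _ _)
  rw [ex_sq] at g2
  have v4 : Real.log (2 * η * T) ^ (kk n p ^ 2) ≤ WW n p T := by
    unfold WW
    apply Real.rpow_le_rpow (Real.log_nonneg (by linarith))
    · exact Real.log_le_log (by linarith) (by nlinarith)
    · positivity
  have hW1' : 1 ≤ WW n p T := hW1
  have v5 : η * T ≤ η * T * WW n p T := le_mul_of_one_le_right (by positivity) hW1'
  have e : ∫ t in (0 : ℝ)..(η * T), ZX n p (1 / 2 + c / Real.log T) t =
      ∫ t in (0:ℝ)..(η * T), Pool.Agent.W184.zn (1 / 2 + c / Real.log T) t ^ (ex n p) := rfl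
  rw [e]
  calc _ ≤ K₀ * (η * T) + K₀ * ∫ t in (0:ℝ)..(η * T + W₀), Pool.Agent.Helper156_SP.az t ^ (ex n p) := v2
    _ ≤ K₀ * (η * T * WW n p T) + K₀ * (C * (2 * η * T * WW n p T)) := by
        have v6 := v3.trans g2
        have v7 : C * (2 * η * T * Real.log (2 * η * T) ^ (kk n p ^ 2)) ≤ C * (2 * η * T * WW n p T) := by
          gcongr
        have v8 := v6.trans v7
        gcongr
    _ = _ := by ring

theorem near (hn : 2 ≤ n) (hp : 0 < p) (hk : 2 * (p : ℝ) / (n : ℝ) ≤ 4) :
    ∃ C : ℝ, 0 < C ∧ ∀ c : ℝ, 0 < c → ∀ᶠ T : ℝ in atTop,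
      (aF (kk n p) * Ph (kk n p) c - C * Real.exp (-(2 / (n : ℝ) * c))) * (T * WW n p T) ≤
        ∫ t in (0 : ℝ)..T, ZX n p (1 / 2 + c / Real.log T) t ∧
      ∫ t in (0 : ℝ)..T, ZX n p (1 / 2 + c / Real.log T) t ≤
        (aF (kk n p) * Ph (kk n p) c + C * Real.exp (-(2 / (n : ℝ) * c))) * (T * WW n p T) := by
  have hn' : 0 < n := by omega
  have hn0 : (0 : ℝ) < n := by exact_mod_cast hn'
  have hκ := kk_pos hn' hp
  obtain ⟨C₁, hC₁, hblock⟩ := block hn hp hk
  refine ⟨C₁ + 1, by positivity, fun c hc => ?_⟩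
  obtain ⟨K, hK, hlow⟩ := low_part hn hp hk hc
  set κ := kk n p with hκdef
  set q : ℝ := 2 / (n : ℝ) with hq
  set E : ℝ := Real.exp (-(q * c)) with hE
  have hE0 : 0 < E := Real.exp_pos _
  set A : ℝ := aF κ * Ph κ c with hA
  have hA0 : 0 ≤ A := by
    have h1 := (aF_pos hκ).le
    have h2 : 0 ≤ Ph κ c := by
      unfold Ph
      refine integral_nonneg fun u => ?_
      have g0 := gd_nonneg (m := κ ^ 2) (by positivity) u
      have c0 := ct_nonneg 1 u
      show 0 ≤ gd (κ ^ 2) u * (ct 1 u * Real.exp (-(2 * c * u)))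
      positivity
    positivity
  set ε : ℝ := E / 8 with hε
  have hε0 : 0 < ε := by positivity
  obtain ⟨η, hη0, hη2, hηK, hηA⟩ : ∃ η : ℝ, 0 < η ∧ η ≤ 1 / 2 ∧ K * η ≤ E / 8 ∧ η * A ≤ E / 8 := by
    refine ⟨min (1 / 2) (min (E / 8 / K) (E / 8 / (A + 1))), by positivity, min_le_left _ _, ?_, ?_⟩
    · have h1 : min (1 / 2) (min (E / 8 / K) (E / 8 / (A + 1))) ≤ E / 8 / K :=
        (min_le_right _ _).trans (min_le_left _ _)
      calc K * min (1 / 2) (min (E / 8 / K) (E / 8 / (A + 1))) ≤ K * (E / 8 / K) := by gcongr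
        _ = E / 8 := by field_simp
    · have h1 : min (1 / 2) (min (E / 8 / K) (E / 8 / (A + 1))) ≤ E / 8 / (A + 1) :=
        (min_le_right _ _).trans (min_le_right _ _)
      calc min (1 / 2) (min (E / 8 / K) (E / 8 / (A + 1))) * A ≤ E / 8 / (A + 1) * A := by gcongr
        _ ≤ E / 8 / (A + 1) * (A + 1) := by gcongr; linarith
        _ = E / 8 := by field_simp
  have hW : Tendsto (fun T : ℝ => Real.log T ^ (κ ^ 2)) atTop atTop :=
    (tendsto_rpow_atTop (by positivity)).comp Real.tendsto_log_atTop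
  -- limits
  have l1 : Tendsto (fun T : ℝ => 2 / Real.log T) atTop (𝓝 0) :=
    tendsto_const_nhds.div_atTop Real.tendsto_log_atTop
  have l2 : Tendsto (fun T : ℝ => 1 - 2 * Real.exp (-(Real.log T ^ 2 / 2))) atTop (𝓝 1) := by
    have h1 : Tendsto (fun T : ℝ => Real.exp (-(Real.log T ^ 2 / 2))) atTop (𝓝 0) := by
      apply Real.tendsto_exp_neg_atTop_nhds_zero.comp
      apply Tendsto.atTop_div_const (by norm_num)
      exact (tendsto_pow_atTop (by norm_num)).comp Real.tendsto_log_atTop
    have := (h1.const_mul 2).const_sub 1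
    simpa using this
  have l3 : Tendsto (fun T : ℝ => 1 - 2 * p / (η * T)) atTop (𝓝 1) := by
    have h4 : Tendsto (fun T : ℝ => 2 * p / (η * T)) atTop (𝓝 0) :=
      tendsto_const_nhds.div_atTop (tendsto_id.const_mul_atTop hη0)
    have := h4.const_sub 1
    simpa using this
  have l4 : Tendsto (fun T : ℝ => Real.exp (1 / (HH T) ^ 2)) atTop (𝓝 1) := by
    have h4 : Tendsto (fun T : ℝ => 1 / (HH T) ^ 2) atTop (𝓝 0) :=
      tendsto_const_nhds.div_atTop ((tendsto_pow_atTop (by norm_num)).comp HH_tendsto)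
    have := (Real.continuous_exp.tendsto 0).comp h4
    simpa [Function.comp_def] using this
  -- upper comparison
  have lu : Tendsto (fun T : ℝ => (1 + 2 / Real.log T) * (A + ε) + C₁ * E) atTop (𝓝 (A + ε + C₁ * E)) := by
    have := ((l1.const_add 1).mul_const (A + ε)).add_const (C₁ * E)
    simpa using this
  have lu2 : Tendsto (fun T : ℝ => (A + ε + C₁ * E + E / 4) *
      ((1 - 2 * Real.exp (-(Real.log T ^ 2 / 2))) * (1 - 2 * p / (η * T)))) atTop
      (𝓝 (A + ε + C₁ * E + E / 4)) := by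
    have := (l2.mul l3).const_mul (A + ε + C₁ * E + E / 4)
    simpa using this
  have ll : Tendsto (fun T : ℝ => (1 - η - 2 / Real.log T) * (A - ε) - C₁ * E) atTop
      (𝓝 ((1 - η) * (A - ε) - C₁ * E)) := by
    have := ((l1.const_sub (1 - η)).mul_const (A - ε)).sub_const (C₁ * E)
    simpa using this
  have ll2 : Tendsto (fun T : ℝ => Real.exp (1 / (HH T) ^ 2) * (A - (C₁ + 1) * E + E / 8)) atTop
      (𝓝 (A - (C₁ + 1) * E + E / 8)) := by
    have := l4.mul_const (A - (C₁ + 1) * E + E / 8)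
    simpa using this
  have hm1 : A + ε + C₁ * E < A + ε + C₁ * E + E / 8 := by linarith
  have hm2 : A + ε + C₁ * E + E / 8 < A + ε + C₁ * E + E / 4 := by linarith
  have hη1 : 0 ≤ η * ε := by positivity
  have hm3 : A - (C₁ + 1) * E + E / 4 < (1 - η) * (A - ε) - C₁ * E := by
    have : (1 - η) * (A - ε) = A - ε - η * A + η * ε := by ring
    rw [this]
    linarith
  have hm4 : A - (C₁ + 1) * E + E / 8 < A - (C₁ + 1) * E + E / 4 := by linarith
  filter_upwards [hblock c ε (η / 2) hc hε0 (by positivity), hlow η hη0 hη2,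
    lu.eventually_lt_const hm1, lu2.eventually_const_lt hm2,
    ll.eventually_const_lt hm3, ll2.eventually_lt_const hm4, ev_basic,
    HH_tendsto.eventually_ge_atTop 1, hW.eventually_ge_atTop 1,
    l2.eventually_const_lt (show (0 : ℝ) < 1 by norm_num),
    l3.eventually_const_lt (show (0 : ℝ) < 1 by norm_num),
    (tl_tendsto p).eventually_lt_const (show (0 : ℝ) < E / 8 by positivity),
    (log_div_tendsto c).eventually (gt_mem_nhds (show (0 : ℝ) < 1 / 2 by norm_num)),
    Real.tendsto_log_atTop.eventually_ge_atTop (2 / η), (tendsto_id.const_mul_atTop hη0).eventually_gt_atTop 2]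
    with T gb gl u1 u2 w1 w2 hb hH hW1 p2 p3 htl hc2 hlη hηT
  obtain ⟨b4, b1, _⟩ := hb
  simp only [id] at hηT
  have hl : 0 < Real.log T := by linarith
  have hT0 : 0 < T := by linarith
  have hcl : 0 < c / Real.log T := by positivity
  set x : ℝ := 1 / 2 + c / Real.log T with hx
  have hx4 : 1 / 4 ≤ x := by linarith
  have hx1 : x < 1 := by linarith
  have hx0 : 0 < x := by linarith
  set W := WW n p T with hWdef
  have hW1' : 1 ≤ W := hW1
  set R := RR T with hR
  have hR0 : 0 < R := by rw [hR]; unfold RR; positivity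
  have hRη : R ≤ η / 2 * T := by
    rw [hR]
    unfold RR
    rw [div_le_iff₀ hl]
    rw [div_le_iff₀ hη0] at hlη
    have h1 : 1 ≤ η / 2 * Real.log T := by linarith
    calc T = 1 * T := (one_mul T).symm
      _ ≤ (η / 2 * Real.log T) * T := mul_le_mul_of_nonneg_right h1 hT0.le
      _ = _ := by ring
  have hTW : 1 ≤ T * W := one_le_mul_of_one_le_of_one_le b1.le hW1'
  have hTW0 : 0 < T * W := by linarith
  have hRT : R = T / Real.log T := rfl
  -- the two parts
  have hsplit : ∫ t in (0 : ℝ)..T, ZX n p x t =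
      (∫ t in (0 : ℝ)..(η * T), ZX n p x t) + ∫ t in (η * T)..T, ZX n p x t :=
    (intervalIntegral.integral_add_adjacent_intervals ((ZX_cont hx1).intervalIntegrable _ _)
      ((ZX_cont hx1).intervalIntegrable _ _)).symm
  have hηTT : η * T ≤ T := mul_le_of_le_one_left hT0.le (by linarith)
  set G := ∫ t in (η * T)..T, GX n p x t with hG
  set Zs := ∫ t in (η * T)..T, ZX n p x t with hZs
  have hlow0 : 0 ≤ ∫ t in (0 : ℝ)..(η * T), ZX n p x t :=
    intervalIntegral.integral_nonneg (by positivity) fun t _ => ZX_nonneg n p x t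
  have hZs0 : 0 ≤ Zs := intervalIntegral.integral_nonneg hηTT fun t _ => ZX_nonneg n p x t
  have hGZ : G ≤ Zs :=
    intervalIntegral.integral_mono_on hηTT ((GX_continuous hx0).intervalIntegrable _ _)
      ((ZX_cont hx1).intervalIntegrable _ _) fun t _ => by
        have := GX_le (n := n) (p := p) hx0 hx1 t
        rwa [zpow_eq] at this
  have hZG : (1 - 2 * p / (η * T)) * Zs ≤ G := by
    rw [hZs, ← intervalIntegral.integral_const_mul]
    refine intervalIntegral.integral_mono_on hηTT (((ZX_cont hx1).const_mul _).intervalIntegrable _ _)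
      ((GX_continuous hx0).intervalIntegrable _ _) fun t ht => ?_
    have := GX_ge (p := p) hn hx0 hx1 (T := η * T) (t := t) hηT ht.1
    rwa [zpow_eq] at this
  -- upper bound
  have hRH : R ^ 2 / (2 * HH T ^ 2) = Real.log T ^ 2 / 2 := RH hT0 hl
  have hup : Zs ≤ (A + ε + C₁ * E + E / 4) * (T * W) := by
    have j1 := JJ_lower (p := p) hn hx4 hx1.le hH hR0.le (a := η * T - R) (b := T + R) (by linarith)
    rw [sub_add_cancel, add_sub_cancel_right, hRH] at j1
    have j2 := (gb (η * T - R) (T + R) (by linarith) (by linarith) (by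
      have : η / 2 * T ≤ 1 / 4 * T := mul_le_mul_of_nonneg_right (by linarith) hT0.le
      linarith)).1
    have j3 : (T + R - (η * T - R)) * ((A + ε) * W) + C₁ * E * (T * W) ≤
        ((1 + 2 / Real.log T) * (A + ε) + C₁ * E) * (T * W) := by
      have : (T + R - (η * T - R)) ≤ (1 + 2 / Real.log T) * T := by
        rw [hRT]
        have e : (1 + 2 / Real.log T) * T = T + 2 * (T / Real.log T) := by ring
        rw [e]
        have : 0 < η * T := by positivity
        linarith
      have h2 : 0 ≤ (A + ε) * W := by positivity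
      calc (T + R - (η * T - R)) * ((A + ε) * W) + C₁ * E * (T * W) ≤
          (1 + 2 / Real.log T) * T * ((A + ε) * W) + C₁ * E * (T * W) :=
            add_le_add_left (mul_le_mul_of_nonneg_right this h2) _
        _ = _ := by ring
    have j4 : ((1 - 2 * Real.exp (-(Real.log T ^ 2 / 2))) * (1 - 2 * p / (η * T))) * Zs ≤
        ((1 - 2 * Real.exp (-(Real.log T ^ 2 / 2))) * (1 - 2 * p / (η * T))) *
          ((A + ε + C₁ * E + E / 4) * (T * W)) := by
      calc ((1 - 2 * Real.exp (-(Real.log T ^ 2 / 2))) * (1 - 2 * p / (η * T))) * Zs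
          = (1 - 2 * Real.exp (-(Real.log T ^ 2 / 2))) * ((1 - 2 * p / (η * T)) * Zs) := by ring
        _ ≤ (1 - 2 * Real.exp (-(Real.log T ^ 2 / 2))) * G := by gcongr
        _ ≤ JJ n p x (HH T) (η * T - R) (T + R) := j1
        _ ≤ _ := j2
        _ ≤ ((1 + 2 / Real.log T) * (A + ε) + C₁ * E) * (T * W) := j3
        _ ≤ ((A + ε + C₁ * E + E / 4) *
            ((1 - 2 * Real.exp (-(Real.log T ^ 2 / 2))) * (1 - 2 * p / (η * T)))) * (T * W) := by
            apply mul_le_mul_of_nonneg_right _ hTW0.le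
            linarith
        _ = _ := by ring
    exact le_of_mul_le_mul_left j4 (by positivity)
  -- lower bound
  have hlo : (A - (C₁ + 1) * E) * (T * W) ≤ G := by
    have hab : η * T + R ≤ T - R := by
      have : η * T ≤ 1 / 2 * T := mul_le_mul_of_nonneg_right hη2 hT0.le
      linarith
    have j1 := JJ_upper (p := p) hn hx4 hx1.le hH hR0.le (a := η * T + R) (b := T - R) (by positivity) hab
    rw [add_sub_cancel_right, sub_add_cancel] at j1
    have j2 := (gb (η * T + R) (T - R) (by
      have : 0 < η * T := by positivity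
      linarith) hab (by linarith)).2
    have j3 : (T - R - (η * T + R)) * (30 ^ p * (Kp p * ((1 + (T - R)) * HH T) ^ (2 * p + 2)) *
      Real.exp (-(R ^ 2 / (2 * HH T ^ 2))) * Real.pi) ≤ tl p T := by
      unfold tl
      have hK := Kp_pos p
      have v0 : 0 < η * T := by positivity
      have v1 : T - R - (η * T + R) ≤ 2 * T := by linarith
      have v2 : 0 ≤ T - R := by linarith
      have v3 : 1 + (T - R) ≤ 1 + 2 * T := by linarith
      gcongr
    have j4 : JJ n p x (HH T) (η * T + R) (T - R) ≤ G + E / 8 := by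
      linarith
    have j5 : ((1 - η - 2 / Real.log T) * (A - ε) - C₁ * E) * (T * W) ≤
        Real.exp (1 / HH T ^ 2) * JJ n p x (HH T) (η * T + R) (T - R) := by
      refine le_trans (le_of_eq ?_) j2
      rw [hRT]
      ring
    have j6 : (Real.exp (1 / (HH T) ^ 2) * (A - (C₁ + 1) * E + E / 8)) * (T * W) ≤
        Real.exp (1 / HH T ^ 2) * JJ n p x (HH T) (η * T + R) (T - R) := by
      refine le_trans ?_ j5
      apply mul_le_mul_of_nonneg_right _ hTW0.le
      linarith
    have j7 : (A - (C₁ + 1) * E + E / 8) * (T * W) ≤ JJ n p x (HH T) (η * T + R) (T - R) := by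
      rw [mul_assoc] at j6
      exact le_of_mul_le_mul_left j6 (Real.exp_pos _)
    have j8 : E / 8 ≤ E / 8 * (T * W) := le_mul_of_one_le_right (by positivity) hTW
    linarith
  constructor
  · rw [hsplit]
    linarith
  · rw [hsplit]
    have g3 : K * η * (T * W) ≤ E / 8 * (T * W) := by gcongr
    have : (A + ε + C₁ * E + E / 4) * (T * W) + E / 8 * (T * W) ≤ (A + (C₁ + 1) * E) * (T * W) := by
      rw [← add_mul]
      apply mul_le_mul_of_nonneg_right _ hTW0.le
      rw [hε]
      linarith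
    linarith

end

end Pool.Agent.H7.NR
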